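import Pool.Agent.Work.MP_36677d_gt_h94.Arc

/-! # Path connected implies arcwise connected, reparametrisation (helper94) -/

set_option autoImplicit false

open Set Filter Topology

namespace Pool.TL94

variable {M : Type*} [MetricSpace M]

/-- monotone paths can be reparametrised to become injective -/
theorem exists_arc_of_mono [CompactSpace M] {g : ℝ → M} (hg : ContinuousOn g (Icc 0 1))
    (hmono : ∀ s u t, 0 ≤ s → s ≤ u → u ≤ t → t ≤ 1 → g s = g t → g u = g s)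
    (hne : g 0 ≠ g 1) : ∃ γ : ℝ → M, ArcFn γ (g 0) (g 1) := by
  have : Nonempty M := ⟨g 0⟩
  obtain ⟨d, hd⟩ := TopologicalSpace.exists_dense_seq M
  obtain ⟨φ, hφ⟩ : ∃ φ : ℕ → ℝ → ℝ, ∀ n t, φ n t = Metric.infDist (d n) (g '' Icc 0 t) :=
    ⟨_, fun _ _ => rfl⟩
  have hne0 : ∀ t : ℝ, 0 ≤ t → (g '' Icc 0 t).Nonempty := fun t ht => ⟨g 0, 0, ⟨le_rfl, ht⟩, rfl⟩
  obtain ⟨R, hR⟩ : ∃ R : ℝ, ∀ x y : M, dist x y ≤ R :=
    ⟨Metric.diam (univ : Set M), fun x y =>
      Metric.dist_le_diam_of_mem isCompact_univ.isBounded (mem_univ x) (mem_univ y)⟩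
  have hφ0 : ∀ n t, 0 ≤ φ n t := fun n t => by rw [hφ]; exact Metric.infDist_nonneg
  have hφR : ∀ n t, 0 ≤ t → φ n t ≤ R := fun n t ht => by
    rw [hφ]
    exact (Metric.infDist_le_dist_of_mem (show g 0 ∈ g '' Icc 0 t from
      ⟨0, ⟨le_rfl, ht⟩, rfl⟩)).trans (hR _ _)
  have hanti : ∀ n s t, 0 ≤ s → s ≤ t → φ n t ≤ φ n s := fun n s t hs hst => by
    rw [hφ, hφ]
    exact Metric.infDist_le_infDist_of_subset (image_mono (Icc_subset_Icc le_rfl hst)) (hne0 s hs)
  have hU : UniformContinuousOn g (Icc 0 1) := isCompact_Icc.uniformContinuousOn_of_continuous hg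
  rw [Metric.uniformContinuousOn_iff] at hU
  have hcont : ∀ n, ContinuousOn (φ n) (Icc 0 1) := by
    intro n
    rw [Metric.continuousOn_iff]
    intro b hb ε hε
    obtain ⟨δ, hδ, h1⟩ := hU (ε / 2) (by positivity)
    have key : ∀ s t, 0 ≤ s → s ≤ t → t ≤ 1 → t - s < δ → |φ n s - φ n t| < ε := by
      intro s t hs hst ht hd
      have h2 := hanti n s t hs hst
      have h3 : φ n s - ε / 2 ≤ φ n t := by
        rw [hφ n t, Metric.le_infDist (hne0 t (hs.trans hst))]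
        rintro _ ⟨u, hu, rfl⟩
        rcases le_total u s with h4 | h4
        · have : φ n s ≤ dist (d n) (g u) := by
            rw [hφ]
            exact Metric.infDist_le_dist_of_mem ⟨u, ⟨hu.1, h4⟩, rfl⟩
          linarith
        · have h5 : φ n s ≤ dist (d n) (g s) := by
            rw [hφ]
            exact Metric.infDist_le_dist_of_mem ⟨s, ⟨hs, le_rfl⟩, rfl⟩
          have h6 : dist (g u) (g s) < ε / 2 := h1 u ⟨hu.1, hu.2.trans ht⟩ s ⟨hs, hst.trans ht⟩ (by
            rw [Real.dist_eq, abs_of_nonneg (by linarith)]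
            linarith [hu.2])
          have h7 := dist_triangle (d n) (g u) (g s)
          linarith
      rw [abs_of_nonneg (by linarith)]
      linarith
    refine ⟨δ, hδ, fun a ha hab => ?_⟩
    rw [Real.dist_eq] at hab ⊢
    rcases le_total a b with h2 | h2
    · exact key a b ha.1 h2 hb.2 (by rw [abs_sub_comm, abs_of_nonneg (by linarith)] at hab; exact hab)
    · rw [abs_sub_comm]
      exact key b a hb.1 h2 ha.2 (by rw [abs_of_nonneg (by linarith)] at hab; exact hab)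
  have hsumm : ∀ t, 0 ≤ t → Summable (fun n => (1 / 2 : ℝ) ^ n * φ n t) := by
    intro t ht
    refine Summable.of_nonneg_of_le (fun n => mul_nonneg (by positivity) (hφ0 n t))
      (fun n => mul_le_mul_of_nonneg_left (hφR n t ht) (by positivity))
      (summable_geometric_two.mul_right R)
  obtain ⟨Φ, hΦ⟩ : ∃ Φ : ℝ → ℝ, ∀ t, Φ t = ∑' n, (1 / 2 : ℝ) ^ n * φ n t := ⟨_, fun _ => rfl⟩
  have hΦc : ContinuousOn Φ (Icc 0 1) := by
    have h1 : Φ = fun t => ∑' n, (1 / 2 : ℝ) ^ n * φ n t := funext hΦ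
    rw [h1]
    refine continuousOn_tsum (u := fun n => (1 / 2 : ℝ) ^ n * R)
      (fun n => continuousOn_const.mul (hcont n)) (summable_geometric_two.mul_right R) ?_
    intro n t ht
    rw [Real.norm_eq_abs, abs_of_nonneg (mul_nonneg (by positivity) (hφ0 n t))]
    exact mul_le_mul_of_nonneg_left (hφR n t ht.1) (by positivity)
  have hΦanti : ∀ s t, 0 ≤ s → s ≤ t → Φ t ≤ Φ s := by
    intro s t hs hst
    rw [hΦ, hΦ]
    exact (hsumm t (hs.trans hst)).tsum_le_tsum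
      (fun n => mul_le_mul_of_nonneg_left (hanti n s t hs hst) (by positivity)) (hsumm s hs)
  have hΦlt : ∀ s t, 0 ≤ s → s ≤ t → t ≤ 1 → g s ≠ g t → Φ t < Φ s := by
    intro s t hs hst ht hst2
    have h1 : g t ∉ g '' Icc 0 s := by
      rintro ⟨u, hu, hut⟩
      apply hst2
      rw [hmono u s t hu.1 hu.2 hst ht hut, hut]
    have h2 : IsClosed (g '' Icc 0 s) :=
      (isCompact_Icc.image_of_continuousOn (hg.mono (Icc_subset_Icc le_rfl (hst.trans ht)))).isClosed
    have h3 : 0 < Metric.infDist (g t) (g '' Icc 0 s) :=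
      (h2.notMem_iff_infDist_pos (hne0 s hs)).1 h1
    obtain ⟨n, hn⟩ := hd.exists_dist_lt (g t) (half_pos h3)
    have h4 : φ n t < φ n s := by
      have h5 : φ n t ≤ dist (d n) (g t) := by
        rw [hφ]
        exact Metric.infDist_le_dist_of_mem ⟨t, ⟨hs.trans hst, le_rfl⟩, rfl⟩
      have h6 : Metric.infDist (g t) (g '' Icc 0 s) ≤ φ n s + dist (g t) (d n) := by
        rw [hφ]
        exact Metric.infDist_le_infDist_add_dist
      rw [dist_comm] at h5
      linarith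
    rw [hΦ, hΦ]
    refine (hsumm t (hs.trans hst)).tsum_lt_tsum (i := n)
      (fun n => mul_le_mul_of_nonneg_left (hanti n s t hs hst) (by positivity)) ?_ (hsumm s hs)
    exact mul_lt_mul_of_pos_left h4 (by positivity)
  have hΦeq : ∀ s t, 0 ≤ s → s ≤ t → t ≤ 1 → g s = g t → Φ s = Φ t := by
    intro s t hs hst ht hst2
    have h1 : g '' Icc 0 s = g '' Icc 0 t := by
      refine Subset.antisymm (image_mono (Icc_subset_Icc le_rfl hst)) ?_
      rintro _ ⟨u, hu, rfl⟩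
      rcases le_total u s with h | h
      · exact ⟨u, ⟨hu.1, h⟩, rfl⟩
      · exact ⟨s, ⟨hs, le_rfl⟩, (hmono s u t hs h hu.2 ht hst2).symm⟩
    rw [hΦ, hΦ]
    congr 1
    funext n
    rw [hφ, hφ, h1]
  have hiff : ∀ s ∈ Icc (0:ℝ) 1, ∀ t ∈ Icc (0:ℝ) 1, (Φ s = Φ t ↔ g s = g t) := by
    intro s hs t ht
    rcases le_total s t with h | h
    · refine ⟨fun h1 => ?_, hΦeq s t hs.1 h ht.2⟩
      by_contra h2
      exact absurd h1 (hΦlt s t hs.1 h ht.2 h2).ne'
    · refine ⟨fun h1 => ?_, fun h1 => (hΦeq t s ht.1 h hs.2 h1.symm).symm⟩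
      by_contra h2
      exact absurd h1 (hΦlt t s ht.1 h hs.2 (fun h => h2 h.symm)).ne
  have hlt : Φ 1 < Φ 0 := hΦlt 0 1 le_rfl zero_le_one le_rfl hne
  have hpos : 0 < Φ 0 - Φ 1 := sub_pos.2 hlt
  -- the monotone surjection
  obtain ⟨Ψ, hΨ⟩ : ∃ Ψ : Icc (0:ℝ) 1 → Icc (0:ℝ) 1, ∀ t, (Ψ t : ℝ) = (Φ 0 - Φ t) / (Φ 0 - Φ 1) := by
    refine ⟨fun t => ⟨(Φ 0 - Φ t) / (Φ 0 - Φ 1), ?_, ?_⟩, fun _ => rfl⟩
    · have := hΦanti 0 t le_rfl t.2.1
      exact div_nonneg (by linarith) hpos.le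
    · have := hΦanti t 1 t.2.1 t.2.2
      rw [div_le_one hpos]
      linarith
  have hΨc : Continuous Ψ := by
    rw [continuous_induced_rng]
    have h1 : (Subtype.val ∘ Ψ) = fun t : Icc (0:ℝ) 1 => (Φ 0 - Φ t) / (Φ 0 - Φ 1) := funext hΨ
    rw [h1]
    have h2 : Continuous (fun t : Icc (0:ℝ) 1 => Φ t) := hΦc.domRestrict
    exact (continuous_const.sub h2).div_const _
  have hΨs : Function.Surjective Ψ := by
    intro x
    have h1 : (Φ 0 - x * (Φ 0 - Φ 1)) ∈ Icc (Φ 1) (Φ 0) := by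
      have := x.2.1
      have := x.2.2
      constructor <;> nlinarith
    obtain ⟨t, ht, ht2⟩ := intermediate_value_Icc' zero_le_one hΦc h1
    refine ⟨⟨t, ht⟩, Subtype.ext ?_⟩
    rw [hΨ]
    show (Φ 0 - Φ t) / (Φ 0 - Φ 1) = x
    rw [ht2]
    field_simp
    ring
  have hΨiff : ∀ s t, Ψ s = Ψ t ↔ g s = g t := by
    intro s t
    rw [← hiff s s.2 t t.2, Subtype.ext_iff, hΨ, hΨ, div_left_inj' hpos.ne']
    constructor
    · intro h; linarith
    · intro h; rw [h]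
  have hq : IsQuotientMap Ψ := hΨc.isClosedMap.isQuotientMap hΨc hΨs
  choose σ hσ using hΨs
  have hcomp : (fun x => g (σ x)) ∘ Ψ = fun t : Icc (0:ℝ) 1 => g t := by
    funext t
    show g (σ (Ψ t)) = g t
    rw [← hΨiff, hσ]
  have hγc : Continuous (fun x => g (σ x)) := by
    rw [hq.continuous_iff, hcomp]
    exact hg.domRestrict
  refine ⟨fun s => g (σ (projIcc 0 1 zero_le_one s)), ?_, ?_, ?_, ?_⟩
  · exact (hγc.comp continuous_projIcc).continuousOn
  · intro s hs t ht hst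
    have h1 : Ψ (σ (projIcc 0 1 zero_le_one s)) = Ψ (σ (projIcc 0 1 zero_le_one t)) :=
      (hΨiff _ _).2 hst
    rw [hσ, hσ, projIcc_of_mem zero_le_one hs, projIcc_of_mem zero_le_one ht] at h1
    exact congrArg Subtype.val h1
  · show g (σ (projIcc 0 1 zero_le_one 0)) = g ((⟨0, ⟨le_rfl, zero_le_one⟩⟩ : Icc (0:ℝ) 1) : ℝ)
    rw [← hΨiff, hσ, projIcc_left]
    apply Subtype.ext
    rw [hΨ]
    simp
  · show g (σ (projIcc 0 1 zero_le_one 1)) = g ((⟨1, ⟨zero_le_one, le_rfl⟩⟩ : Icc (0:ℝ) 1) : ℝ)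
    rw [← hΨiff, hσ, projIcc_right]
    apply Subtype.ext
    rw [hΨ]
    exact (div_self hpos.ne').symm

/-- in a compact metric space, joined points are joined by an arc -/
theorem exists_arcFn [CompactSpace M] {x y : M} (h : Joined x y) (hne : x ≠ y) :
    ∃ γ : ℝ → M, ArcFn γ x y := by
  obtain ⟨p⟩ := h
  obtain ⟨g, hg, hg0, hg1, hmono⟩ := exists_mono p.extend (by fun_prop)
  have h0 : g 0 = x := by rw [hg0]; simp
  have h1 : g 1 = y := by rw [hg1]; simp
  rw [← h0, ← h1] at hne ⊢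
  exact exists_arc_of_mono hg hmono hne

end Pool.TL94
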