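import Pool.Agent.Work.MP_36677d_gt_h94.Core2
import Pool.Agent.Work.MP_36677d_gt_h94.Arc2

/-! # Increasing sequences in a path component of a hereditarily unicoherent continuum
(helper94) -/

set_option autoImplicit false

open Set Filter Topology

namespace Pool.TL94

variable {M : Type*} [MetricSpace M]

theorem cont_seg [CompactSpace M] (hHU : HU M) {a b : M} (hab : Joined a b) : Cont (seg a b) := by
  by_cases h : a = b
  · rw [h, seg_self]
    exact cont_singleton b
  · obtain ⟨γ, hγ⟩ := exists_arcFn hab h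
    rw [← hγ.zero, ← hγ.one, hγ.seg_eq hHU le_rfl le_rfl zero_le_one]
    exact hγ.cont_image le_rfl le_rfl

theorem joined_of_mem_seg [CompactSpace M] (hHU : HU M) {a b x : M} (hab : Joined a b)
    (hx : x ∈ seg a b) : Joined a x := by
  by_cases h : a = b
  · rw [← h, seg_self] at hx
    rw [mem_singleton_iff.1 hx]
  · obtain ⟨γ, hγ⟩ := exists_arcFn hab h
    obtain ⟨u, hu0, hu1, rfl⟩ := hγ.exists_of_mem hHU hx
    have h1 : ContinuousOn (fun s => γ (u * s)) unitInterval := by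
      refine hγ.cont.comp (by fun_prop) ?_
      intro s hs
      exact ⟨mul_nonneg hu0 hs.1, mul_le_one₀ hu1 hs.1 hs.2⟩
    exact ⟨Path.ofLine h1 (by rw [mul_zero]; exact hγ.zero) (by rw [mul_one])⟩

theorem seg_antisymm [CompactSpace M] (hHU : HU M) {p a b : M} (hpb : Joined p b)
    (h : a ∈ seg p b) (h' : b ∈ seg p a) : a = b := by
  by_cases hb : b = p
  · rw [hb, seg_self] at h
    rw [hb]
    exact h
  · obtain ⟨γ, hγ⟩ := exists_arcFn hpb (fun h => hb h.symm)
    obtain ⟨s, hs0, hs1, hs⟩ := hγ.exists_of_mem hHU h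
    rw [← hs, ← hγ.one, hγ.mem_iff0 hHU hs0 hs1 zero_le_one le_rfl] at h'
    rw [← hs, le_antisymm hs1 h', hγ.one]

/-- betweenness: if `a` is before `b` and `b` is before `c` then `b` is between `a` and `c` -/
theorem seg_btw [CompactSpace M] (hHU : HU M) {p a b c : M} (hpb : Joined p b) (h : a ∈ seg p b)
    (h' : b ∈ seg p c) : b ∈ seg a c := by
  intro C hC haC hcC
  have hpa : Joined p a := joined_of_mem_seg hHU hpb h
  rcases h' (seg p a ∪ C) ((cont_seg hHU hpa).union hC ⟨a, right_mem p a, haC⟩)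
    (Or.inl (left_mem p a)) (Or.inr hcC) with h1 | h1
  · rw [← seg_antisymm hHU hpb h h1]
    exact haC
  · exact h1

theorem seg_btw' [CompactSpace M] (hHU : HU M) {p a b c : M} (hac : Joined a c) (h : a ∈ seg p c)
    (h' : b ∈ seg a c) : a ∈ seg p b := by
  rw [seg_comm] at h h' ⊢
  exact seg_btw hHU hac.symm h' h

section
variable (z : ℕ → M)

/-- the tail of the ray -/
def Tl (n : ℕ) : Set M := closure (⋃ m : {m : ℕ // n ≤ m}, seg (z n) (z m))

variable {z}

theorem seg_sub_tl {n m : ℕ} (h : n ≤ m) : seg (z n) (z m) ⊆ Tl z n :=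
  fun _ hx => subset_closure (mem_iUnion.2 ⟨⟨m, h⟩, hx⟩)

theorem cont_tl [CompactSpace M] (hHU : HU M) (hz : ∀ n m, Joined (z n) (z m)) (n : ℕ) :
    Cont (Tl z n) := by
  refine ⟨isClosed_closure.isCompact, IsPreconnected.closure ?_⟩
  refine isPreconnected_iUnion ⟨z n, ?_⟩ (fun m => (cont_seg hHU (hz _ _)).con)
  rw [mem_iInter]
  exact fun m => left_mem _ _

theorem tl_sub {n : ℕ} {D : Set M} (hD : Cont D) (h : ∀ m, n ≤ m → z m ∈ D) :
    Tl z n ⊆ D := by
  refine closure_minimal ?_ hD.cpt.isClosed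
  refine iUnion_subset fun m => ?_
  exact seg_sub hD (h n le_rfl) (h m m.2)

end

/-- an increasing sequence whose closure lies in the path component of `p` is bounded -/
theorem bdd_of_closure [CompactSpace M] (hHU : HU M) (p : M) (z : ℕ → M)
    (hpz : ∀ n, Joined p (z n)) (hz : ∀ n, z n ∈ seg p (z (n + 1)))
    (hcl : ∀ x ∈ closure (⋃ n, seg p (z n)), Joined p x) :
    ∃ w, Joined p w ∧ ∀ n, z n ∈ seg p w := by
  by_contra hno
  push Not at hno
  have hzz : ∀ n m, Joined (z n) (z m) := fun n m => (hpz n).symm.trans (hpz m)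
  have hmono : ∀ n m, n ≤ m → z n ∈ seg p (z m) := by
    intro n m hnm
    induction m, hnm using Nat.le_induction with
    | base => exact right_mem _ _
    | succ m _ ih => exact seg_trans ih (hz m)
  have hmem : ∀ n m, n ≤ m → z m ∈ Tl z n := fun n m h => seg_sub_tl h (right_mem _ _)
  have hanti : ∀ n m, n ≤ m → Tl z m ⊆ Tl z n := by
    intro n m hnm
    exact tl_sub (cont_tl hHU hzz n) fun k hk => hmem n k (hnm.trans hk)
  have hTp : ∀ n, ∀ x ∈ Tl z n, Joined p x := by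
    intro n x hx
    apply hcl
    refine closure_mono ?_ hx
    refine iUnion_subset fun m => ?_
    exact (seg_sub (cont_seg hHU (hpz m)) (hmono n m m.2) (right_mem _ _)).trans
      (subset_iUnion (fun n => seg p (z n)) m)
  -- a limit point
  obtain ⟨q, hq⟩ : (⋂ n, Tl z n).Nonempty := by
    refine IsCompact.nonempty_iInter_of_directed_nonempty_isCompact_isClosed (fun n => Tl z n)
      ?_ (fun n => ⟨z n, hmem n n le_rfl⟩) (fun n => (cont_tl hHU hzz n).cpt)
      (fun n => isClosed_closure)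
    intro n m
    exact ⟨max n m, hanti _ _ (le_max_left _ _), hanti _ _ (le_max_right _ _)⟩
  rw [mem_iInter] at hq
  have hpq : Joined p q := hTp 0 q (hq 0)
  obtain ⟨N, hN⟩ := hno q hpq
  have hNn : ∀ n, N ≤ n → z n ∉ seg p q := fun n hn h => hN (seg_trans (hmono N n hn) h)
  have hA : ∀ n m, N ≤ n → z n ∈ Tl z m := by
    intro n m hn
    have h1 : ∀ m, n ≤ m → z n ∈ Tl z m := by
      intro m hm
      rcases hmono n m hm (Tl z m ∪ seg p q) ((cont_tl hHU hzz m).union (cont_seg hHU hpq)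
        ⟨q, hq m, right_mem _ _⟩) (Or.inr (left_mem _ _)) (Or.inl (hmem m m le_rfl)) with h | h
      · exact h
      · exact absurd h (hNn n hn)
    rcases le_total n m with h | h
    · exact h1 m h
    · exact hanti m n h (h1 n le_rfl)
  have hB : ∀ m, Tl z N ⊆ Tl z m := fun m => tl_sub (cont_tl hHU hzz m) fun k hk => hA k m hk
  -- continua with nonempty interior
  have hC : ∀ D : Set M, Cont D → D ⊆ Tl z N → ∀ V : Set M, IsOpen V → (V ∩ Tl z N).Nonempty →
      V ∩ Tl z N ⊆ D → Tl z N ⊆ D := by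
    intro D hD hDN V hV hVN hVD
    have h1 : ∀ n, N ≤ n → ∃ m, n ≤ m ∧ ∃ d ∈ D, d ∈ seg (z n) (z m) := by
      intro n hn
      obtain ⟨x, hxV, hxN⟩ := hVN
      obtain ⟨d, hdV, hd⟩ := mem_closure_iff.1 (hB n hxN) V hV hxV
      obtain ⟨⟨m, hm⟩, hdm⟩ := mem_iUnion.1 hd
      exact ⟨m, hm, d, hVD ⟨hdV, hanti N n hn (seg_sub_tl hm hdm)⟩, hdm⟩
    obtain ⟨m, hm, d, hdD, hd⟩ := h1 N le_rfl
    have h2 : ∀ k, m ≤ k → z k ∈ D := by
      intro k hk
      obtain ⟨m', hm', d', hd'D, hd'⟩ := h1 k (hm.trans hk)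
      have h3 : d ∈ seg p (z k) := by
        have h4 : d ∈ seg p (z m) :=
          seg_sub (cont_seg hHU (hpz m)) (hmono N m hm) (right_mem _ _) hd
        exact seg_trans h4 (hmono m k hk)
      have h5 : z k ∈ seg p d' := seg_btw' hHU (hzz k m') (hmono k m' hm') hd'
      exact seg_sub hD hdD hd'D (seg_btw hHU (hpz k) h3 h5)
    exact (hB m).trans (tl_sub hD h2)
  -- the tail is not a segment
  obtain ⟨n1, hn1, hne1⟩ : ∃ n1, N ≤ n1 ∧ z n1 ≠ z N := by
    by_contra hcon
    push Not at hcon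
    obtain ⟨n, hn⟩ := hno (z N) (hpz N)
    rcases le_total n N with h | h
    · exact hn (hmono n N h)
    · rw [hcon n h] at hn
      exact hn (right_mem _ _)
  have hTz : ∀ x ∈ Tl z N, Joined (z N) x := fun x hx => (hpz N).symm.trans (hTp N x hx)
  have hD : ∀ x ∈ Tl z N, ∃ y ∈ Tl z N, y ∉ seg (z N) x := by
    intro x hx
    by_contra hcon
    push Not at hcon
    have hxN : z N ≠ x := by
      intro h
      have h1 := hcon (z n1) (hmem N n1 hn1)
      rw [← h, seg_self] at h1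
      exact hne1 h1
    obtain ⟨γ, hγ⟩ := exists_arcFn (hTz x hx) hxN
    have hsegT : seg (z N) x ⊆ Tl z N := seg_sub (cont_tl hHU hzz N) (hmem N N le_rfl) hx
    have himg : seg (z N) x = γ '' Icc 0 1 := by
      rw [← hγ.seg_eq hHU le_rfl le_rfl zero_le_one, hγ.zero, hγ.one]
    have hclosed : IsClosed (γ '' Icc (1 / 2) 1) :=
      (hγ.cont_image (by norm_num) le_rfl).cpt.isClosed
    have h1 := hC (γ '' Icc 0 (1 / 2)) (hγ.cont_image le_rfl (by norm_num))
      ((image_mono (Icc_subset_Icc le_rfl (by norm_num))).trans (himg ▸ hsegT))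
      (γ '' Icc (1 / 2) 1)ᶜ hclosed.isOpen_compl ⟨z N, ?_, hmem N N le_rfl⟩ ?_
    · obtain ⟨s, hs, hsx⟩ := h1 hx
      have h2 := hγ.inj ⟨hs.1, hs.2.trans (by norm_num)⟩ ⟨zero_le_one, le_rfl⟩
        (hsx.trans hγ.one.symm)
      have := hs.2
      rw [h2] at this
      norm_num at this
    · rintro ⟨s, hs, hsx⟩
      have h2 := hγ.inj ⟨le_trans (by norm_num) hs.1, hs.2⟩ ⟨le_rfl, zero_le_one⟩
        (hsx.trans hγ.zero.symm)
      have := hs.1
      rw [h2] at this
      norm_num at this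
    · rintro y ⟨hy1, hy2⟩
      have h2 := hcon y hy2
      rw [himg] at h2
      obtain ⟨s, hs, rfl⟩ := h2
      rcases le_total s (1 / 2) with h3 | h3
      · exact ⟨s, ⟨hs.1, h3⟩, rfl⟩
      · exact absurd ⟨s, ⟨h3, hs.2⟩, rfl⟩ hy1
  -- Baire category
  obtain ⟨U, hUo, hUb⟩ := exists_basis_seq (M := M)
  have hTc : IsClosed (Tl z N) := isClosed_closure
  have : CompactSpace (Tl z N) := isCompact_iff_compactSpace.1 hTc.isCompact
  have : Nonempty (Tl z N) := ⟨⟨z N, hmem N N le_rfl⟩⟩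
  obtain ⟨F, hF⟩ : ∃ F : ℕ → Set M, ∀ i, F i =
      closure (connectedComponentIn (Tl z N \ U i) (z N)) := ⟨_, fun _ => rfl⟩
  have hFsub : ∀ i, F i ⊆ Tl z N \ U i := by
    intro i
    rw [hF]
    exact closure_minimal (connectedComponentIn_subset _ _) (hTc.sdiff (hUo i))
  obtain ⟨i, hi⟩ := nonempty_interior_of_iUnion_of_closed
    (f := fun i : {i : ℕ // (U i ∩ Tl z N).Nonempty} => ((↑) : Tl z N → M) ⁻¹' F i)
    (fun i => by
      rw [hF]
      exact isClosed_closure.preimage continuous_subtype_val) (by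
      ext ⟨x, hx⟩
      simp only [mem_iUnion, mem_preimage, mem_univ, iff_true]
      obtain ⟨y, hy, hyx⟩ := hD x hx
      obtain ⟨n, hn1, hn2⟩ := hUb y (seg (z N) x)ᶜ (isClosed_seg _ _).isOpen_compl hyx
      refine ⟨⟨n, y, hn1, hy⟩, ?_⟩
      show x ∈ F n
      rw [hF]
      apply subset_closure
      refine (cont_seg hHU (hTz x hx)).con.subset_connectedComponentIn (left_mem _ _) ?_
        (right_mem _ _)
      intro y' hy'
      exact ⟨seg_sub (cont_tl hHU hzz N) (hmem N N le_rfl) hx hy', fun h => hn2 h hy'⟩)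
  obtain ⟨⟨x, hx⟩, hxi⟩ := hi
  obtain ⟨O, hO1, hO2, hO3⟩ := mem_interior.1 hxi
  obtain ⟨V, hV, rfl⟩ := isOpen_induced_iff.1 hO2
  have hcF : Cont (F i) := by
    rw [hF]
    exact ⟨isClosed_closure.isCompact, isPreconnected_connectedComponentIn.closure⟩
  have h1 := hC (F i) hcF ((hFsub i).trans sdiff_subset) V hV ⟨x, hO3, hx⟩ (by
    rintro y ⟨hy1, hy2⟩
    exact hO1 (show (⟨y, hy2⟩ : Tl z N) ∈ ((↑) : Tl z N → M) ⁻¹' V from hy1))
  obtain ⟨y, hy1, hy2⟩ := i.2
  exact ((hFsub i) (h1 hy2)).2 hy1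

end Pool.TL94
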