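import Pool.Agent.Work.MP_36677d_gt_h94.Seg

/-! # Tree-like continua are hereditarily unicoherent (helper94) -/

set_option autoImplicit false

open Set Filter Topology

namespace Pool.TL94

/-- arbitrarily fine finite open covers whose nerve is acyclic -/
def TreeLike (M : Type*) [MetricSpace M] : Prop :=
  ∀ ε : ℝ, 0 < ε → ∃ (n : ℕ) (U : Fin n → Set M),
    (∀ i, IsOpen (U i)) ∧ (∀ i, (U i).Nonempty) ∧
    (∀ i, Metric.diam (U i) < ε) ∧ (⋃ i, U i) = Set.univ ∧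
    (∀ i j k, i ≠ j → j ≠ k → i ≠ k → U i ∩ U j ∩ U k = ∅) ∧
    (SimpleGraph.fromRel (fun i j : Fin n => (U i ∩ U j).Nonempty)).IsAcyclic

variable {M : Type*} [MetricSpace M]

/-- a preconnected set gives connected subgraphs of the nerve -/
theorem exists_walk {n : ℕ} {U : Fin n → Set M} (hU : ∀ i, IsOpen (U i))
    (hcov : (⋃ i, U i) = univ) {A : Set M} (hA : IsPreconnected A) {p q : M} (hp : p ∈ A)
    (hq : q ∈ A) {i j : Fin n} (hi : p ∈ U i) (hj : q ∈ U j) :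
    ∃ w : (SimpleGraph.fromRel (fun i j : Fin n => (U i ∩ U j).Nonempty)).Walk i j,
      ∀ v ∈ w.support, (U v ∩ A).Nonempty := by
  by_contra hcon
  obtain ⟨R, hR⟩ : ∃ R : Set (Fin n), ∀ k, k ∈ R ↔
      ∃ w : (SimpleGraph.fromRel (fun i j : Fin n => (U i ∩ U j).Nonempty)).Walk i k,
        ∀ v ∈ w.support, (U v ∩ A).Nonempty := ⟨{k | _}, fun _ => Iff.rfl⟩
  have hiR : i ∈ R := by
    rw [hR]
    refine ⟨SimpleGraph.Walk.nil, fun v hv => ?_⟩
    rw [SimpleGraph.Walk.support_nil, List.mem_singleton] at hv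
    rw [hv]
    exact ⟨p, hi, hp⟩
  have hjR : j ∉ R := fun h => hcon ((hR j).1 h)
  have h1 := hA (⋃ k ∈ R, U k) (⋃ k ∈ Rᶜ, U k) (isOpen_biUnion fun k _ => hU k)
    (isOpen_biUnion fun k _ => hU k) (by
      intro x _
      have : x ∈ ⋃ i, U i := by rw [hcov]; trivial
      obtain ⟨k, hk⟩ := mem_iUnion.1 this
      by_cases hkR : k ∈ R
      · exact Or.inl (mem_iUnion₂.2 ⟨k, hkR, hk⟩)
      · exact Or.inr (mem_iUnion₂.2 ⟨k, hkR, hk⟩))
    ⟨p, hp, mem_iUnion₂.2 ⟨i, hiR, hi⟩⟩ ⟨q, hq, mem_iUnion₂.2 ⟨j, hjR, hj⟩⟩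
  obtain ⟨x, hxA, hx1, hx2⟩ := h1
  obtain ⟨k, hkR, hxk⟩ := mem_iUnion₂.1 hx1
  obtain ⟨l, hlR, hxl⟩ := mem_iUnion₂.1 hx2
  apply hlR
  obtain ⟨w, hw⟩ := (hR k).1 hkR
  rw [hR]
  have hadj : (SimpleGraph.fromRel (fun i j : Fin n => (U i ∩ U j).Nonempty)).Adj k l := by
    rw [SimpleGraph.fromRel_adj]
    exact ⟨fun h => hlR (h ▸ hkR), Or.inl ⟨x, hxk, hxl⟩⟩
  refine ⟨w.append (SimpleGraph.Walk.cons hadj SimpleGraph.Walk.nil), fun v hv => ?_⟩
  rw [SimpleGraph.Walk.mem_support_append_iff] at hv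
  rcases hv with hv | hv
  · exact hw v hv
  · rw [SimpleGraph.Walk.support_cons, SimpleGraph.Walk.support_nil, List.mem_cons,
      List.mem_singleton] at hv
    rcases hv with rfl | rfl
    · exact ⟨x, hxk, hxA⟩
    · exact ⟨x, hxl, hxA⟩

theorem TreeLike.hu [CompactSpace M] (h : TreeLike M) : HU M := by
  intro A B hAc hA hBc hB
  by_contra hcon
  rw [isPreconnected_closed_iff] at hcon
  push Not at hcon
  obtain ⟨t, t', ht, ht', hcov, ⟨p1, hp1, hp1t⟩, ⟨p2, hp2, hp2t⟩, hempty⟩ := hcon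
  have hdisj : Disjoint (A ∩ B ∩ t) (A ∩ B ∩ t') := by
    rw [Set.disjoint_left]
    intro x hx hx'
    have : x ∈ A ∩ B ∩ (t ∩ t') := ⟨hx.1, hx.2, hx'.2⟩
    rw [hempty] at this
    exact this
  have hAB : IsCompact (A ∩ B) := hAc.inter hBc
  obtain ⟨W1, W2, hW1, hW2, h1, h2, h12⟩ := SeparatedNhds.of_isCompact_isCompact
    (hAB.inter_right ht) (hAB.inter_right ht') hdisj
  obtain ⟨δ, hδ, hleb⟩ := lebesgue_number_lemma_of_metric_sUnion (s := (univ : Set M))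
    (c := {Aᶜ, Bᶜ, W1, W2}) isCompact_univ (by
      intro V hV
      simp only [mem_insert_iff, mem_singleton_iff] at hV
      rcases hV with rfl | rfl | rfl | rfl
      exacts [hAc.isClosed.isOpen_compl, hBc.isClosed.isOpen_compl, hW1, hW2]) (by
      intro x _
      by_cases hxA : x ∈ A
      · by_cases hxB : x ∈ B
        · rcases hcov ⟨hxA, hxB⟩ with h | h
          · exact ⟨W1, by simp, h1 ⟨⟨hxA, hxB⟩, h⟩⟩
          · exact ⟨W2, by simp, h2 ⟨⟨hxA, hxB⟩, h⟩⟩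
        · exact ⟨Bᶜ, by simp, hxB⟩
      · exact ⟨Aᶜ, by simp, hxA⟩)
  obtain ⟨n, U, hUo, hUne, hUd, hUc, -, hac⟩ := h δ hδ
  -- sets of the cover meeting `A` and `B` are contained in `W1` or in `W2`
  have key : ∀ i, (U i ∩ A).Nonempty → (U i ∩ B).Nonempty → U i ⊆ W1 ∨ U i ⊆ W2 := by
    intro i hiA hiB
    obtain ⟨x, hx⟩ := hUne i
    obtain ⟨V, hV, hxV⟩ := hleb x (mem_univ x)
    have hball : U i ⊆ Metric.ball x δ := by
      intro y hy
      rw [Metric.mem_ball]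
      exact lt_of_le_of_lt (Metric.dist_le_diam_of_mem
        (isCompact_univ.isBounded.subset (subset_univ _)) hy hx) (hUd i)
    have hsub := hball.trans hxV
    simp only [mem_insert_iff, mem_singleton_iff] at hV
    rcases hV with rfl | rfl | rfl | rfl
    · obtain ⟨y, hy, hyA⟩ := hiA
      exact absurd hyA (hsub hy)
    · obtain ⟨y, hy, hyB⟩ := hiB
      exact absurd hyB (hsub hy)
    · exact Or.inl hsub
    · exact Or.inr hsub
  obtain ⟨i, hi⟩ := mem_iUnion.1 (show p1 ∈ ⋃ i, U i by rw [hUc]; trivial)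
  obtain ⟨j, hj⟩ := mem_iUnion.1 (show p2 ∈ ⋃ i, U i by rw [hUc]; trivial)
  obtain ⟨wA, hwA⟩ := exists_walk hUo hUc hA hp1.1 hp2.1 hi hj
  obtain ⟨wB, hwB⟩ := exists_walk hUo hUc hB hp1.2 hp2.2 hi hj
  have hpath : wA.toPath = wB.toPath := (hac.subsingleton_path _ _).elim _ _
  have hsupp : ∀ v ∈ (wA.toPath : (SimpleGraph.fromRel
      (fun i j : Fin n => (U i ∩ U j).Nonempty)).Walk i j).support,
      (U v ∩ A).Nonempty ∧ (U v ∩ B).Nonempty := by
    intro v hv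
    refine ⟨hwA v (wA.support_toPath_subset_support hv), hwB v (wB.support_toPath_subset_support ?_)⟩
    rw [← hpath]
    exact hv
  have hind : ∀ (a b : Fin n) (w : (SimpleGraph.fromRel
      (fun i j : Fin n => (U i ∩ U j).Nonempty)).Walk a b),
      (∀ v ∈ w.support, (U v ∩ A).Nonempty ∧ (U v ∩ B).Nonempty) → U a ⊆ W1 → U b ⊆ W1 := by
    intro a b w
    induction w with
    | nil => exact fun _ h => h
    | @cons a c b hadj w ih =>
      intro hs ha
      refine ih (fun v hv => hs v (by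
        rw [SimpleGraph.Walk.support_cons]
        exact List.mem_cons_of_mem _ hv)) ?_
      have hc := hs c (by
        rw [SimpleGraph.Walk.support_cons]
        exact List.mem_cons_of_mem _ w.start_mem_support)
      rcases key c hc.1 hc.2 with h3 | h3
      · exact h3
      · exfalso
        rw [SimpleGraph.fromRel_adj] at hadj
        obtain ⟨-, ⟨x, hx1, hx2⟩ | ⟨x, hx1, hx2⟩⟩ := hadj
        · exact Set.disjoint_left.1 h12 (ha hx1) (h3 hx2)
        · exact Set.disjoint_left.1 h12 (ha hx2) (h3 hx1)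
  have hiW : U i ⊆ W1 := by
    rcases key i ⟨p1, hi, hp1.1⟩ ⟨p1, hi, hp1.2⟩ with h3 | h3
    · exact h3
    · exact absurd (h3 hi) (Set.disjoint_left.1 h12 (h1 ⟨hp1, hp1t⟩))
  exact Set.disjoint_left.1 h12 (hind i j _ hsupp hiW hj) (h2 ⟨hp2, hp2t⟩)

end Pool.TL94
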