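import Pool.Agent.Work.MP_36677d_gt_h94.Core3
import Pool.Agent.Work.MP_36677d_gt_h94.Ray
import Pool.Agent.Work.MP_36677d_gt_h94.TreeLike

/-! # Fixed points on the product of a tree-like continuum and an interval (helper94) -/

set_option autoImplicit false

open Set Filter Topology

namespace Pool.TL94

variable {M : Type*} [MetricSpace M]

/-- the sequence of initial segments, in the form needed below -/
theorem bdd_of_arcs [CompactSpace M] (hHU : HU M)
    (hR : ∀ A : ℕ → Set M, (∀ n, ∃ f : C(unitInterval, M), Function.Injective f ∧ range f = A n) →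
      Monotone A → ∀ x ∈ closure (⋃ n, A n), ∀ y ∈ A 0, Joined x y) (p : M) :
    Bdd p (Joined p) := by
  intro z hpz hz
  by_cases hall : ∀ n, z n = p
  · exact ⟨p, Joined.refl p, fun n => by rw [hall n]; exact left_mem p p⟩
  push Not at hall
  obtain ⟨n0, hn0⟩ := hall
  have hmono : ∀ n m, n ≤ m → z n ∈ seg p (z m) := by
    intro n m hnm
    induction m, hnm using Nat.le_induction with
    | base => exact right_mem _ _
    | succ m _ ih => exact seg_trans ih (hz m)
  have hne : ∀ n, n0 ≤ n → z n ≠ p := by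
    intro n hn h
    have h1 := hmono n0 n hn
    rw [h, seg_self] at h1
    exact hn0 h1
  refine bdd_of_closure hHU p z hpz hz ?_
  intro x hx
  have h1 := hR (fun n => seg p (z (n0 + n))) ?_ ?_ x ?_ p (left_mem _ _)
  · exact h1.symm
  · intro n
    obtain ⟨γ, hγ⟩ := exists_arcFn (hpz (n0 + n)) (fun h => hne (n0 + n) (by omega) h.symm)
    refine ⟨⟨fun s : unitInterval => γ s, hγ.cont.domRestrict⟩, ?_, ?_⟩
    · intro s t hst
      exact Subtype.ext (hγ.inj s.2 t.2 hst)
    · show range (fun s : unitInterval => γ s) = seg p (z (n0 + n))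
      ext y
      constructor
      · rintro ⟨s, rfl⟩
        exact hγ.mem_seg hHU s.2.1 s.2.2
      · intro hy
        obtain ⟨u, hu0, hu1, rfl⟩ := hγ.exists_of_mem hHU hy
        exact ⟨⟨u, hu0, hu1⟩, rfl⟩
  · intro a b hab
    exact seg_mono (hmono _ _ (by omega))
  · refine closure_mono ?_ hx
    refine iUnion_subset fun n => ?_
    exact (seg_mono (hmono n (n0 + n) (by omega))).trans
      (subset_iUnion (fun n => seg p (z (n0 + n))) n)

theorem main [CompactSpace M] (hT : TreeLike M) (hf : ∀ f : C(M, M), ∃ p, Joined p (f p))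
    (hR : ∀ A : ℕ → Set M, (∀ n, ∃ f : C(unitInterval, M), Function.Injective f ∧ range f = A n) →
      Monotone A → ∀ x ∈ closure (⋃ n, A n), ∀ y ∈ A 0, Joined x y)
    (g : C(M × unitInterval, M × unitInterval)) : ∃ q, g q = q := by
  obtain ⟨p, hp⟩ := hf ⟨fun x => (g (x, 0)).1, by fun_prop⟩
  exact core hT.hu (fun p x hx hne => exists_arcFn hx (fun h => hne h.symm)) p
    (bdd_of_arcs hT.hu hR p) g hp

end Pool.TL94
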