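import Pool.Agent.Work.MP_36677d_gt_h94.Core2

/-! # From fixed point free maps to discrete data (helper94) -/

set_option autoImplicit false

open Set Filter Topology

namespace Pool.TL94

variable {M : Type*} [MetricSpace M]

theorem exists_dat [CompactSpace M] [Nonempty M] (G : C(M × unitInterval, M × unitInterval))
    (hG : ∀ q, G q ≠ q) : ∃ (v : M → ℝ → ℝ) (e δ : ℝ) (N : ℕ),
      Dat (fun x t => (G (x, projIcc 0 1 zero_le_one t)).1) v e δ N := by
  -- positive displacement
  have hcont : Continuous (fun q : M × unitInterval => dist (G q).1 q.1 + dist (G q).2 q.2) := by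
    fun_prop
  have hpos : ∀ q : M × unitInterval, 0 < dist (G q).1 q.1 + dist (G q).2 q.2 := by
    intro q
    by_contra h
    have h1 : dist (G q).1 q.1 = 0 := le_antisymm (by linarith [dist_nonneg (x := (G q).2) (y := q.2)])
      dist_nonneg
    have h2 : dist (G q).2 q.2 = 0 := le_antisymm (by linarith [dist_nonneg (x := (G q).1) (y := q.1)])
      dist_nonneg
    exact hG q (Prod.ext (dist_eq_zero.1 h1) (dist_eq_zero.1 h2))
  obtain ⟨η, hη, hηq⟩ : ∃ η > 0, ∀ q : M × unitInterval,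
      η ≤ dist (G q).1 q.1 + dist (G q).2 q.2 := by
    obtain ⟨q0, -, hq0⟩ := isCompact_univ.exists_isMinOn (univ_nonempty (α := M × unitInterval))
      hcont.continuousOn
    exact ⟨_, hpos q0, fun q => hq0 (mem_univ q)⟩
  obtain ⟨e, he, heη, he1⟩ : ∃ e : ℝ, 0 < e ∧ 6 * e ≤ η ∧ e ≤ 1 :=
    ⟨min (η / 6) 1, lt_min (by positivity) one_pos, by
      have := min_le_left (η / 6) 1; linarith, min_le_right _ _⟩
  have hU : UniformContinuous G := CompactSpace.uniformContinuous_of_continuous G.continuous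
  obtain ⟨ρ, hρ, hρ2⟩ := Metric.uniformContinuous_iff.1 hU (e / 4) (by positivity)
  obtain ⟨δ, hδ, hδρ, hδe⟩ : ∃ δ : ℝ, 0 < δ ∧ δ < ρ ∧ δ ≤ e / 4 :=
    ⟨min (ρ / 2) (e / 4), lt_min (by positivity) (by positivity), by
      have := min_le_left (ρ / 2) (e / 4); linarith, min_le_right _ _⟩
  obtain ⟨n, hn⟩ := exists_nat_one_div_lt hδ
  have hproj : ∀ t ∈ Icc (0:ℝ) 1, ((projIcc (0:ℝ) 1 zero_le_one t : unitInterval) : ℝ) = t := by
    intro t ht
    rw [projIcc_of_mem zero_le_one ht]
  have hG2 : ∀ q : M × unitInterval, 0 ≤ ((G q).2 : ℝ) ∧ ((G q).2 : ℝ) ≤ 1 := fun q => (G q).2.2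
  -- the basic estimate
  have hnear : ∀ (x x' : M) (t t' : ℝ), dist x x' ≤ δ → |t - t'| ≤ 1 / ((n + 1 : ℕ) : ℝ) →
      t ∈ Icc (0:ℝ) 1 → t' ∈ Icc (0:ℝ) 1 → |t - t'| ≤ δ ∧
      dist (G (x, projIcc 0 1 zero_le_one t)) (G (x', projIcc 0 1 zero_le_one t')) < e / 4 := by
    intro x x' t t' hx ht h0 h0'
    have h1 : |t - t'| ≤ δ := ht.trans (by push_cast; exact hn.le)
    refine ⟨h1, hρ2 ?_⟩
    rw [Prod.dist_eq]
    refine max_lt (lt_of_le_of_lt hx hδρ) ?_
    rw [Subtype.dist_eq, Real.dist_eq, hproj t h0, hproj t' h0']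
    exact lt_of_le_of_lt h1 hδρ
  refine ⟨fun x t => ((G (x, projIcc 0 1 zero_le_one t)).2 : ℝ) -
    (projIcc (0:ℝ) 1 zero_le_one t : ℝ) + e * (1 - 2 * (projIcc (0:ℝ) 1 zero_le_one t : ℝ)), e, δ,
    n + 1, ?_, he, hδ, Nat.succ_pos n, ?_, ?_, ?_, ?_⟩
  · have h1 : Continuous (fun t : ℝ => (projIcc (0:ℝ) 1 zero_le_one t : unitInterval)) :=
      continuous_projIcc
    exact continuous_fst.comp (G.continuous.comp
      (continuous_fst.prodMk (h1.comp continuous_snd)))
  · intro x
    have h1 := (hG2 (x, projIcc 0 1 zero_le_one 0)).1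
    show e ≤ _ - _ + _
    rw [hproj 0 ⟨le_rfl, zero_le_one⟩]
    linarith
  · intro x
    have h1 := (hG2 (x, projIcc 0 1 zero_le_one 1)).2
    show _ - _ + _ ≤ -e
    rw [hproj 1 ⟨zero_le_one, le_rfl⟩]
    linarith
  · intro x x' t t' hx ht h0 h0'
    obtain ⟨h1, h2⟩ := hnear x x' t t' hx ht h0 h0'
    rw [Prod.dist_eq] at h2
    have h3 := lt_of_le_of_lt (le_max_right _ _) h2
    rw [Subtype.dist_eq, Real.dist_eq] at h3
    show |_ - _ + _ - (_ - _ + _)| < e
    rw [hproj t h0, hproj t' h0']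
    have h4 := abs_lt.1 h3
    have h5 := abs_le.1 h1
    rw [abs_lt]
    have h6 : |e * (t - t')| ≤ e / 4 := by
      rw [abs_mul, abs_of_pos he]
      calc e * |t - t'| ≤ 1 * (e / 4) := by
            apply mul_le_mul he1 (h1.trans hδe) (abs_nonneg _) zero_le_one
        _ = e / 4 := one_mul _
    have h7 := abs_le.1 h6
    constructor <;> nlinarith
  · intro x x' x'' t t' hx hx' ht h0 h0' hv heq
    obtain ⟨h1, h2⟩ := hnear x x' t t' hx ht h0 h0'
    rw [Prod.dist_eq] at h2
    have h3 := lt_of_le_of_lt (le_max_left _ _) h2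
    have hv' : |((G (x, projIcc 0 1 zero_le_one t)).2 : ℝ) - t + e * (1 - 2 * t)| < e := by
      have h4 := hv
      rwa [hproj t h0] at h4
    have h4 := hηq (x, projIcc 0 1 zero_le_one t)
    rw [Subtype.dist_eq, Real.dist_eq] at h4
    simp only at h4 heq
    rw [hproj t h0] at h4
    have h5 : |((G (x, projIcc 0 1 zero_le_one t)).2 : ℝ) - t| ≤ 2 * e := by
      have h6 := abs_lt.1 hv'
      have h7 := h0.1
      have h8 := h0.2
      rw [abs_le]
      constructor <;> nlinarith
    have h6 : dist (G (x, projIcc 0 1 zero_le_one t)).1 x ≤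
        dist (G (x, projIcc 0 1 zero_le_one t)).1 (G (x', projIcc 0 1 zero_le_one t')).1 +
        dist x x'' := by
      have := dist_triangle (G (x, projIcc 0 1 zero_le_one t)).1
        (G (x', projIcc 0 1 zero_le_one t')).1 x
      rw [heq] at this ⊢
      rw [dist_comm x x'']
      exact this
    linarith

/-- the main step: no fixed point free map if the arc component of `p` is invariant -/
theorem core [CompactSpace M] (hHU : HU M) (harc : ∀ p : M, ArcTo p (Joined p)) (p : M)
    (hN : Bdd p (Joined p)) (G : C(M × unitInterval, M × unitInterval))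
    (hp : Joined p (G (p, 0)).1) : ∃ q, G q = q := by
  by_contra hG
  push Not at hG
  have : Nonempty M := ⟨p⟩
  obtain ⟨v, e, δ, N, D⟩ := exists_dat G hG
  refine D.false hHU (p := p) (P := Joined p) (Joined.refl p) (harc p) ?_ ?_ hN
  · intro y hy x hx
    by_cases hyp : y = p
    · rw [hyp, seg_self] at hx
      rw [mem_singleton_iff.1 hx]
    · obtain ⟨γ, hγ⟩ := harc p y hy hyp
      obtain ⟨u, hu0, hu1, rfl⟩ := hγ.exists_of_mem hHU hx
      have h1 : ContinuousOn (fun s => γ (u * s)) unitInterval := by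
        refine hγ.cont.comp (by fun_prop) ?_
        intro s hs
        exact ⟨mul_nonneg hu0 hs.1, mul_le_one₀ hu1 hs.1 hs.2⟩
      exact ⟨Path.ofLine h1 (by rw [mul_zero]; exact hγ.zero) (by rw [mul_one])⟩
  · intro x hx t ht
    have h1 : Joined (G (p, 0)).1 (G (x, 0)).1 := by
      obtain ⟨γ⟩ := hx
      exact ⟨γ.map (f := fun y => (G (y, (0 : unitInterval))).1) (by fun_prop)⟩
    have h2 : Joined (G (x, 0)).1 (G (x, projIcc 0 1 zero_le_one t)).1 := by
      have h3 : Continuous (fun s : ℝ => (G (x, (projIcc 0 1 zero_le_one (s * t) :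
          unitInterval))).1) := by
        have h4 : Continuous (fun s : ℝ => (projIcc (0:ℝ) 1 zero_le_one (s * t) : unitInterval)) :=
          continuous_projIcc.comp (by fun_prop)
        exact continuous_fst.comp (G.continuous.comp (continuous_const.prodMk h4))
      exact ⟨Path.ofLine h3.continuousOn (by rw [zero_mul, projIcc_left]; rfl) (by rw [one_mul])⟩
    exact (hp.trans h1).trans h2

end Pool.TL94
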