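import Pool.Agent.Work.MP_36677d_gt_h94.Seg

/-! # Path connected implies arcwise connected, for compact metric spaces (helper94) -/

set_option autoImplicit false

open Set Filter Topology

namespace Pool.TL94

/-- the largest element of a closed set below `t` -/
theorem exists_max {C : Set ℝ} (hC : IsClosed C) {t : ℝ} {c0 : ℝ} (h0 : c0 ∈ C) (ht : c0 ≤ t) :
    ∃ m ∈ C, m ≤ t ∧ ∀ u ∈ C, u ≤ t → u ≤ m := by
  have h1 : IsCompact (C ∩ Icc c0 t) := isCompact_Icc.inter_left hC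
  obtain ⟨m, hm, hm2⟩ := h1.exists_isGreatest ⟨c0, h0, le_rfl, ht⟩
  refine ⟨m, hm.1, hm.2.2, fun u hu hut => ?_⟩
  rcases le_total c0 u with h2 | h2
  · exact hm2 ⟨hu, h2, hut⟩
  · exact h2.trans hm.2.1

theorem exists_min {C : Set ℝ} (hC : IsClosed C) {t : ℝ} {c0 : ℝ} (h0 : c0 ∈ C) (ht : t ≤ c0) :
    ∃ m ∈ C, t ≤ m ∧ ∀ u ∈ C, t ≤ u → m ≤ u := by
  have h1 : IsCompact (C ∩ Icc t c0) := isCompact_Icc.inter_left hC
  obtain ⟨m, hm, hm2⟩ := h1.exists_isLeast ⟨c0, h0, ht, le_rfl⟩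
  refine ⟨m, hm.1, hm.2.1, fun u hu hut => ?_⟩
  rcases le_total u c0 with h2 | h2
  · exact hm2 ⟨hu, hut, h2⟩
  · exact hm.2.2.trans h2

variable {M : Type*} [MetricSpace M]

/-- closed subsets of `[0, 1]` such that `f` agrees at the ends of all gaps -/
def Gp (f : ℝ → M) : Set (Set ℝ) :=
  {C | C ⊆ Icc 0 1 ∧ IsClosed C ∧ (0:ℝ) ∈ C ∧ (1:ℝ) ∈ C ∧
    ∀ a ∈ C, ∀ b ∈ C, a < b → (∀ u, a < u → u < b → u ∉ C) → f a = f b}

theorem gp_chain (f : ℝ → M) (hf : Continuous f) (c : Set (Set ℝ)) (hc : c ⊆ Gp f)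
    (hch : IsChain (· ⊆ ·) c) (hne : c.Nonempty) : ∃ lb ∈ Gp f, ∀ s ∈ c, lb ⊆ s := by
  refine ⟨⋂₀ c, ⟨?_, ?_, ?_, ?_, ?_⟩, fun s hs => sInter_subset_of_mem hs⟩
  · obtain ⟨s, hs⟩ := hne
    exact (sInter_subset_of_mem hs).trans (hc hs).1
  · exact isClosed_sInter fun s hs => (hc hs).2.1
  · exact fun s hs => (hc hs).2.2.1
  · exact fun s hs => (hc hs).2.2.2.1
  · intro a ha b hb hab hgap
    by_contra hne2
    have hd : 0 < dist (f a) (f b) := dist_pos.2 hne2
    obtain ⟨r1, hr1, h1⟩ := Metric.continuous_iff.1 hf a (dist (f a) (f b) / 2) (by positivity)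
    obtain ⟨r2, hr2, h2⟩ := Metric.continuous_iff.1 hf b (dist (f a) (f b) / 2) (by positivity)
    obtain ⟨r, hr, hrr1, hrr2, hrab⟩ : ∃ r > 0, r < r1 ∧ r < r2 ∧ r ≤ (b - a) / 2 := by
      refine ⟨min (min (r1 / 2) (r2 / 2)) ((b - a) / 2), ?_, ?_, ?_, min_le_right _ _⟩
      · exact lt_min (lt_min (by positivity) (by positivity)) (by linarith)
      · have := (min_le_left (min (r1 / 2) (r2 / 2)) ((b - a) / 2)).trans (min_le_left _ _)
        linarith
      · have := (min_le_left (min (r1 / 2) (r2 / 2)) ((b - a) / 2)).trans (min_le_right _ _)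
        linarith
    have : Nonempty c := hne.to_subtype
    obtain ⟨⟨C, hCc⟩, hC⟩ := (isCompact_Icc (a := a + r) (b := b - r)).elim_directed_family_closed
      (fun s : c => (s : Set ℝ)) (fun s => (hc s.2).2.1) (by
        ext u
        simp only [mem_inter_iff, mem_iInter, mem_empty_iff_false, iff_false, not_and]
        intro hu hall
        refine hgap u (by linarith [hu.1]) (by linarith [hu.2]) ?_
        intro s hs
        exact hall ⟨s, hs⟩) (by
        rintro ⟨s, hs⟩ ⟨t, ht⟩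
        rcases hch.total hs ht with h | h
        · exact ⟨⟨s, hs⟩, Subset.rfl, h⟩
        · exact ⟨⟨t, ht⟩, h, Subset.rfl⟩)
    simp only at hC
    have haC : a ∈ C := ha C hCc
    have hbC : b ∈ C := hb C hCc
    obtain ⟨a', ha'C, ha', ha'2⟩ := exists_max (hc hCc).2.1 haC (show a ≤ a + r by linarith)
    obtain ⟨b', hb'C, hb', hb'2⟩ := exists_min (hc hCc).2.1 hbC (show b - r ≤ b by linarith)
    have haa' : a ≤ a' := ha'2 a haC (by linarith)
    have hbb' : b' ≤ b := hb'2 b hbC (by linarith)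
    have hab' : f a' = f b' := by
      rcases (show a' ≤ b' by linarith).lt_or_eq with h3 | h3
      · refine (hc hCc).2.2.2.2 a' ha'C b' hb'C h3 ?_
        intro u hu1 hu2 huC
        rcases le_or_gt u (a + r) with h4 | h4
        · exact absurd (ha'2 u huC h4) (not_le.2 hu1)
        · rcases le_or_gt (b - r) u with h5 | h5
          · exact absurd (hb'2 u huC h5) (not_le.2 hu2)
          · have : u ∈ Icc (a + r) (b - r) ∩ C := ⟨⟨h4.le, h5.le⟩, huC⟩
            rw [hC] at this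
            exact this
      · rw [h3]
    have h3 : dist (f a') (f a) < dist (f a) (f b) / 2 := h1 a' (by
      rw [Real.dist_eq, abs_of_nonneg (by linarith)]; linarith)
    have h4 : dist (f b') (f b) < dist (f a) (f b) / 2 := h2 b' (by
      rw [Real.dist_eq, abs_of_nonpos (by linarith)]; linarith)
    have h5 := dist_triangle (f a) (f a') (f b)
    rw [dist_comm (f a) (f a'), hab'] at h5
    rw [hab'] at h3
    linarith

/-- a path can be made monotone -/
theorem exists_mono (f : ℝ → M) (hf : Continuous f) :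
    ∃ g : ℝ → M, ContinuousOn g (Icc 0 1) ∧ g 0 = f 0 ∧ g 1 = f 1 ∧
      ∀ s u t, 0 ≤ s → s ≤ u → u ≤ t → t ≤ 1 → g s = g t → g u = g s := by
  obtain ⟨C, -, hCm⟩ := zorn_superset_nonempty (Gp f) (fun c hc hch hne => gp_chain f hf c hc hch hne)
    (Icc 0 1) ⟨Subset.rfl, isClosed_Icc, ⟨le_rfl, zero_le_one⟩, ⟨zero_le_one, le_rfl⟩, by
      intro a ha b hb hab h
      exact absurd ⟨by linarith [ha.1], by linarith [hb.2]⟩ (h ((a + b) / 2) (by linarith)
        (by linarith))⟩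
  obtain ⟨hC01, hCc, h0C, h1C, hgap⟩ := hCm.1
  -- equal values only at the ends of gaps
  have hinj : ∀ a ∈ C, ∀ b ∈ C, a < b → f a = f b → ∀ u, a < u → u < b → u ∉ C := by
    intro a ha b hb hab hfab
    have h1 : C \ Ioo a b ∈ Gp f := by
      refine ⟨sdiff_subset.trans hC01, ?_, ⟨h0C, fun h => ?_⟩, ⟨h1C, fun h => ?_⟩, ?_⟩
      · exact hCc.inter isOpen_Ioo.isClosed_compl
      · exact absurd h.1 (not_lt.2 (hC01 ha).1)
      · exact absurd h.2 (not_lt.2 (hC01 hb).2)
      · intro c hc d hd hcd hcd2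
        by_cases hmeet : ∃ t, c < t ∧ t < d ∧ a < t ∧ t < b
        · obtain ⟨t, h2, h3, h4, h5⟩ := hmeet
          have ha' : a ∈ C \ Ioo a b := ⟨ha, fun h => lt_irrefl a h.1⟩
          have hb' : b ∈ C \ Ioo a b := ⟨hb, fun h => lt_irrefl b h.2⟩
          have h6 : a ≤ c := by
            by_contra h
            exact hcd2 a (not_le.1 h) (by linarith) ha'
          have h7 : c ≤ a := by
            by_contra h
            exact hc.2 ⟨not_le.1 h, by linarith⟩
          have h8 : d ≤ b := by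
            by_contra h
            exact hcd2 b (by linarith) (not_le.1 h) hb'
          have h9 : b ≤ d := by
            by_contra h
            exact hd.2 ⟨by linarith, not_le.1 h⟩
          rw [le_antisymm h7 h6, le_antisymm h8 h9]
          exact hfab
        · push Not at hmeet
          refine hgap c hc.1 d hd.1 hcd ?_
          intro u hu1 hu2 huC
          exact hcd2 u hu1 hu2 ⟨huC, fun h => absurd h.2 (not_lt.2 (hmeet u hu1 hu2 h.1))⟩
    have h2 := hCm.2 h1 sdiff_subset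
    intro u hu1 hu2 huC
    exact (h2 huC).2 ⟨hu1, hu2⟩
  -- the retraction onto `C`
  have hmax : ∀ t : ℝ, ∃ m, 0 ≤ t → m ∈ C ∧ m ≤ t ∧ ∀ u ∈ C, u ≤ t → u ≤ m := by
    intro t
    by_cases ht : 0 ≤ t
    · obtain ⟨m, h1, h2, h3⟩ := exists_max hCc h0C ht
      exact ⟨m, fun _ => ⟨h1, h2, h3⟩⟩
    · exact ⟨0, fun h => absurd h ht⟩
  choose c hc using hmax
  have hcC : ∀ t, t ∈ C → c t = t := by
    intro t ht
    have h1 := hc t (hC01 ht).1
    exact le_antisymm h1.2.1 (h1.2.2 t ht le_rfl)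
  have hcmono : ∀ s t, 0 ≤ s → s ≤ t → c s ≤ c t := by
    intro s t hs hst
    have h1 := hc s hs
    have h2 := hc t (hs.trans hst)
    exact h2.2.2 _ h1.1 (h1.2.1.trans hst)
  refine ⟨fun t => f (c t), ?_, ?_, ?_, ?_⟩
  · -- continuity
    have hmod : ∀ s t, 0 ≤ s → s ≤ t → t ≤ 1 → ∃ u ∈ Icc s t, ∃ v ∈ Icc s t,
        dist (f (c s)) (f (c t)) = dist (f u) (f v) := by
      intro s t hs hst ht
      have h1 := hc s hs
      have h2 := hc t (hs.trans hst)
      rcases h1.2.1.lt_or_eq with h3 | h3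
      · by_cases h4 : c t < s
        · have h5 : c s = c t := le_antisymm (hcmono s t hs hst) (h1.2.2 _ h2.1 h4.le)
          exact ⟨s, ⟨le_rfl, hst⟩, s, ⟨le_rfl, hst⟩, by rw [h5, dist_self, dist_self]⟩
        · push Not at h4
          obtain ⟨m, hmC, hm1, hm2⟩ := exists_min hCc h2.1 h4
          have hmt : m ≤ c t := hm2 _ h2.1 h4
          have h5 : f (c s) = f m := by
            refine hgap _ h1.1 _ hmC (lt_of_lt_of_le h3 hm1) ?_
            intro u hu1 hu2 huC
            rcases le_total u s with h6 | h6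
            · exact absurd (h1.2.2 u huC h6) (not_le.2 hu1)
            · exact absurd (hm2 u huC h6) (not_le.2 hu2)
          exact ⟨m, ⟨hm1, hmt.trans h2.2.1⟩, c t, ⟨h4, h2.2.1⟩, by rw [h5]⟩
      · have h4 : c s ≤ c t := hcmono s t hs hst
        exact ⟨c s, ⟨h3.ge, h4.trans h2.2.1⟩, c t, ⟨h3 ▸ h4, h2.2.1⟩, rfl⟩
    have hU := isCompact_Icc.uniformContinuousOn_of_continuous (hf.continuousOn (s := Icc (0:ℝ) 1))
    rw [Metric.uniformContinuousOn_iff] at hU
    rw [Metric.continuousOn_iff]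
    intro b hb ε hε
    obtain ⟨δ, hδ, h1⟩ := hU ε hε
    refine ⟨δ, hδ, fun a ha hab => ?_⟩
    rw [Real.dist_eq] at hab
    rcases le_total a b with h2 | h2
    · obtain ⟨u, hu, v, hv, h3⟩ := hmod a b ha.1 h2 hb.2
      rw [h3]
      refine h1 u ⟨ha.1.trans hu.1, hu.2.trans hb.2⟩ v ⟨ha.1.trans hv.1, hv.2.trans hb.2⟩ ?_
      rw [Real.dist_eq]
      have h4 := abs_lt.1 hab
      rw [abs_lt]
      constructor <;> linarith [hu.1, hu.2, hv.1, hv.2]
    · obtain ⟨u, hu, v, hv, h3⟩ := hmod b a hb.1 h2 ha.2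
      rw [dist_comm, h3]
      refine h1 u ⟨hb.1.trans hu.1, hu.2.trans ha.2⟩ v ⟨hb.1.trans hv.1, hv.2.trans ha.2⟩ ?_
      rw [Real.dist_eq]
      have h4 := abs_lt.1 hab
      rw [abs_lt]
      constructor <;> linarith [hu.1, hu.2, hv.1, hv.2]
  · show f (c 0) = f 0
    rw [hcC 0 h0C]
  · show f (c 1) = f 1
    rw [hcC 1 h1C]
  · intro s u t hs hsu hut ht h
    have h' : f (c s) = f (c t) := h
    show f (c u) = f (c s)
    have h1 := hc s hs
    have h2 := hc t ((hs.trans hsu).trans hut)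
    have h3 := hc u (hs.trans hsu)
    have h4 := hcmono s u hs hsu
    have h5 := hcmono u t (hs.trans hsu) hut
    rcases h4.lt_or_eq with h6 | h6
    · rcases h5.lt_or_eq with h7 | h7
      · exact absurd h3.1 (hinj _ h1.1 _ h2.1 (h6.trans h7) h' _ h6 h7)
      · rw [h7, h']
    · rw [h6]

end Pool.TL94
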