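import Mathlib

/-! # Parity of walks in a 4-cycle (helper94) -/

set_option autoImplicit false

namespace Pool.TL94

open Classical in
/-- labels: `0` (low), `1` (middle, inside), `2` (high), `3` (middle, outside) -/
noncomputable def lab (e v : ℝ) (b : Prop) : Fin 4 :=
  if e ≤ v then 0 else if v ≤ -e then 2 else if b then 1 else 3

/-- one if and only if the pair is `{0, 1}` -/
def cr (a b : Fin 4) : ZMod 2 := if (a = 0 ∧ b = 1) ∨ (a = 1 ∧ b = 0) then 1 else 0

theorem sq_zero_aux : ∀ a b c d : Fin 4,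
    ((a = 1 ∧ b = 3) ∨ (a = 3 ∧ b = 1) ∨ (b = 1 ∧ c = 3) ∨ (b = 3 ∧ c = 1) ∨
    (c = 1 ∧ d = 3) ∨ (c = 3 ∧ d = 1) ∨ (d = 1 ∧ a = 3) ∨ (d = 3 ∧ a = 1)) ∨
    ((a = 0 ∨ b = 0 ∨ c = 0 ∨ d = 0) ∧ (a = 2 ∨ b = 2 ∨ c = 2 ∨ d = 2)) ∨
    cr a b + cr b c + cr c d + cr d a = 0 := by decide

theorem sq_zero (a b c d : Fin 4)
    (h1 : ¬(a = 1 ∧ b = 3)) (h2 : ¬(a = 3 ∧ b = 1)) (h3 : ¬(b = 1 ∧ c = 3))
    (h4 : ¬(b = 3 ∧ c = 1)) (h5 : ¬(c = 1 ∧ d = 3)) (h6 : ¬(c = 3 ∧ d = 1))
    (h7 : ¬(d = 1 ∧ a = 3)) (h8 : ¬(d = 3 ∧ a = 1))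
    (h9 : ¬((a = 0 ∨ b = 0 ∨ c = 0 ∨ d = 0) ∧ (a = 2 ∨ b = 2 ∨ c = 2 ∨ d = 2))) :
    cr a b + cr b c + cr c d + cr d a = 0 := by
  rcases sq_zero_aux a b c d with h | h | h
  · rcases h with h | h | h | h | h | h | h | h
    exacts [absurd h h1, absurd h h2, absurd h h3, absurd h h4, absurd h h5, absurd h h6,
      absurd h h7, absurd h h8]
  · exact absurd h h9
  · exact h

theorem step_one : ∀ a b : Fin 4, a ≠ 3 → b ≠ 3 → ¬(a = 0 ∧ b = 2) → ¬(a = 2 ∧ b = 0) →
    (if a = 0 then (0 : ZMod 2) else 1) + cr a b = if b = 0 then 0 else 1 := by decide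

theorem cr_comm : ∀ a b : Fin 4, cr a b = cr b a := by decide

theorem add_self2 : ∀ a : ZMod 2, a + a = 0 := by decide

theorem eq_of_add_eq_zero2 : ∀ a b : ZMod 2, a + b = 0 → a = b := by decide

theorem lab_zero {e v : ℝ} {b : Prop} (h : e ≤ v) : lab e v b = 0 := by
  unfold lab; rw [if_pos h]

theorem lab_two {e v : ℝ} (he : 0 < e) {b : Prop} (h : v ≤ -e) : lab e v b = 2 := by
  unfold lab; rw [if_neg (by linarith), if_pos h]

theorem lab_eq_zero {e v : ℝ} {b : Prop} (h : lab e v b = 0) : e ≤ v := by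
  unfold lab at h
  split_ifs at h with h1 h2 h3
  · exact h1
  all_goals exact absurd h (by decide)

theorem lab_eq_two {e v : ℝ} {b : Prop} (h : lab e v b = 2) : v ≤ -e := by
  unfold lab at h
  split_ifs at h with h1 h2 h3
  · exact absurd h (by decide)
  · exact h2
  all_goals exact absurd h (by decide)

theorem lab_eq_one {e v : ℝ} {b : Prop} (h : lab e v b = 1) : |v| < e ∧ b := by
  unfold lab at h
  split_ifs at h with h1 h2 h3
  · exact absurd h (by decide)
  · exact absurd h (by decide)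
  · exact ⟨abs_lt.2 ⟨by linarith, by linarith⟩, h3⟩
  · exact absurd h (by decide)

theorem lab_eq_three {e v : ℝ} {b : Prop} (h : lab e v b = 3) : |v| < e ∧ ¬ b := by
  unfold lab at h
  split_ifs at h with h1 h2 h3
  · exact absurd h (by decide)
  · exact absurd h (by decide)
  · exact absurd h (by decide)
  · exact ⟨abs_lt.2 ⟨by linarith, by linarith⟩, h3⟩

theorem lab_mid {e v : ℝ} {b : Prop} (h : |v| < e) : lab e v b = 1 ↔ b := by
  have h1 := abs_lt.1 h
  constructor
  · exact fun h => (lab_eq_one h).2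
  · intro hb
    unfold lab
    rw [if_neg (by linarith), if_neg (by linarith), if_pos hb]

/-- the parity of the number of changes between `0` and `1` -/
noncomputable def par (e : ℝ) (v : ℕ → ℝ) (b : ℕ → Prop) (N : ℕ) : ZMod 2 :=
  ∑ i ∈ Finset.range N, cr (lab e (v i) (b i)) (lab e (v (i + 1)) (b (i + 1)))

theorem par_succ (e : ℝ) (v : ℕ → ℝ) (b : ℕ → Prop) (N : ℕ) : par e v b (N + 1) =
    par e v b N + cr (lab e (v N) (b N)) (lab e (v (N + 1)) (b (N + 1))) :=
  Finset.sum_range_succ _ _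

theorem par_eq {e : ℝ} (he : 0 < e) {v v' : ℕ → ℝ} {b b' : ℕ → Prop} {N : ℕ}
    (h0 : e ≤ v 0) (h0' : e ≤ v' 0) (hN : v N ≤ -e) (hN' : v' N ≤ -e)
    (hv : ∀ i < N, |v i - v (i + 1)| < e) (hv' : ∀ i < N, |v' i - v' (i + 1)| < e)
    (hvv : ∀ i ≤ N, |v i - v' i| < e)
    (hb : ∀ i < N, |v i| < e → |v (i + 1)| < e → (b i ↔ b (i + 1)))
    (hb' : ∀ i < N, |v' i| < e → |v' (i + 1)| < e → (b' i ↔ b' (i + 1)))
    (hbb : ∀ i ≤ N, |v i| < e → |v' i| < e → (b i ↔ b' i)) :
    par e v b N = par e v' b' N := by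
  have key : ∀ i ≤ N, par e v b i + par e v' b' i
      = cr (lab e (v i) (b i)) (lab e (v' i) (b' i)) := by
    intro i
    induction i with
    | zero =>
      intro _
      rw [lab_zero h0, lab_zero h0']
      simp [par, cr]
    | succ i ih =>
      intro hi
      have hi' : i < N := by omega
      have ih := ih hi'.le
      rw [par_succ, par_succ]
      have h1 := abs_lt.1 (hv i hi')
      have h2 := abs_lt.1 (hv' i hi')
      have h3 := abs_lt.1 (hvv i hi'.le)
      have h4 := abs_lt.1 (hvv (i + 1) hi)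
      have hsq := sq_zero (lab e (v i) (b i)) (lab e (v (i + 1)) (b (i + 1)))
        (lab e (v' (i + 1)) (b' (i + 1))) (lab e (v' i) (b' i))
        (fun h => (lab_eq_three h.2).2 ((hb i hi' (lab_eq_one h.1).1 (lab_eq_three h.2).1).1
          (lab_eq_one h.1).2))
        (fun h => (lab_eq_three h.1).2 ((hb i hi' (lab_eq_three h.1).1 (lab_eq_one h.2).1).2
          (lab_eq_one h.2).2))
        (fun h => (lab_eq_three h.2).2 ((hbb (i + 1) hi (lab_eq_one h.1).1 (lab_eq_three h.2).1).1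
          (lab_eq_one h.1).2))
        (fun h => (lab_eq_three h.1).2 ((hbb (i + 1) hi (lab_eq_three h.1).1 (lab_eq_one h.2).1).2
          (lab_eq_one h.2).2))
        (fun h => (lab_eq_three h.2).2 ((hb' i hi' (lab_eq_three h.2).1 (lab_eq_one h.1).1).2
          (lab_eq_one h.1).2))
        (fun h => (lab_eq_three h.1).2 ((hb' i hi' (lab_eq_one h.2).1 (lab_eq_three h.1).1).1
          (lab_eq_one h.2).2))
        (fun h => (lab_eq_three h.2).2 ((hbb i hi'.le (lab_eq_three h.2).1 (lab_eq_one h.1).1).2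
          (lab_eq_one h.1).2))
        (fun h => (lab_eq_three h.1).2 ((hbb i hi'.le (lab_eq_one h.2).1 (lab_eq_three h.1).1).1
          (lab_eq_one h.2).2))
        (by
          rintro ⟨h5, h6⟩
          rcases h5 with h5 | h5 | h5 | h5 <;> rcases h6 with h6 | h6 | h6 | h6 <;>
            have h5' := lab_eq_zero h5 <;> have h6' := lab_eq_two h6 <;> linarith)
      have h7 := cr_comm (lab e (v' i) (b' i)) (lab e (v (i)) (b (i)))
      have h8 := cr_comm (lab e (v' (i + 1)) (b' (i + 1))) (lab e (v' i) (b' i))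
      have h9 := eq_of_add_eq_zero2 _ _ (show
        (par e v b i + cr (lab e (v i) (b i)) (lab e (v (i + 1)) (b (i + 1))) +
          (par e v' b' i + cr (lab e (v' i) (b' i)) (lab e (v' (i + 1)) (b' (i + 1))))) +
          cr (lab e (v (i + 1)) (b (i + 1))) (lab e (v' (i + 1)) (b' (i + 1))) = 0 by
        rw [← hsq, h7, h8, ← ih]
        ring)
      exact h9
  have h1 := key N le_rfl
  rw [lab_two he hN, lab_two he hN'] at h1
  have h2 : cr 2 2 = 0 := by decide
  rw [h2] at h1
  exact eq_of_add_eq_zero2 _ _ h1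

theorem par_one {e : ℝ} (he : 0 < e) {v : ℕ → ℝ} {b : ℕ → Prop} {N : ℕ}
    (h0 : e ≤ v 0) (hN : v N ≤ -e) (hv : ∀ i < N, |v i - v (i + 1)| < e) (hb : ∀ i, b i) :
    par e v b N = 1 := by
  have key : ∀ i ≤ N, par e v b i = if lab e (v i) (b i) = 0 then 0 else 1 := by
    intro i
    induction i with
    | zero =>
      intro _
      rw [lab_zero h0]
      simp [par]
    | succ i ih =>
      intro hi
      have hi' : i < N := by omega
      have h1 := abs_lt.1 (hv i hi')
      rw [par_succ, ih hi'.le]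
      refine step_one _ _ (fun h => (lab_eq_three h).2 (hb i))
        (fun h => (lab_eq_three h).2 (hb (i + 1))) ?_ ?_
      · rintro ⟨h5, h6⟩
        have h5' := lab_eq_zero h5
        have h6' := lab_eq_two h6
        linarith
      · rintro ⟨h5, h6⟩
        have h5' := lab_eq_zero h6
        have h6' := lab_eq_two h5
        linarith
  rw [key N le_rfl, lab_two he hN]
  rfl

/-! ### Decomposition into classes -/

/-- the middle index of a change -/
def mdx (j : ℕ × Bool) : ℕ := if j.2 then j.1 + 1 else j.1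

open Classical in
/-- the changes between a low label and a middle label, with the middle index -/
noncomputable def chg (e : ℝ) (v : ℕ → ℝ) (N : ℕ) : Finset (ℕ × Bool) :=
  (Finset.range N ×ˢ Finset.univ).filter (fun j =>
    (j.2 = true ∧ e ≤ v j.1 ∧ |v (j.1 + 1)| < e) ∨ (j.2 = false ∧ |v j.1| < e ∧ e ≤ v (j.1 + 1)))

open Classical in
theorem par_eq_sum (e : ℝ) (v : ℕ → ℝ) (b : ℕ → Prop) (N : ℕ) :
    par e v b N = ∑ j ∈ chg e v N, if b (mdx j) then 1 else 0 := by
  unfold par chg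
  rw [Finset.sum_filter, Finset.sum_product]
  refine Finset.sum_congr rfl fun i _ => ?_
  rw [Fintype.sum_bool]
  simp only [mdx, if_true, true_and, Bool.false_eq_true, if_false, false_and, or_false, false_or,
    reduceCtorEq]
  by_cases h1 : e ≤ v i
  · by_cases h2 : |v (i + 1)| < e
    · have h3 : ¬ |v i| < e := by
        intro h; have := (abs_lt.1 h).2; linarith
      have hA : ¬ (|v i| < e ∧ e ≤ v (i + 1)) := fun h => h3 h.1
      rw [if_pos (show e ≤ v i ∧ |v (i + 1)| < e from ⟨h1, h2⟩), if_neg hA, add_zero,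
        lab_zero h1]
      by_cases hb : b (i + 1)
      · rw [if_pos hb, (lab_mid h2).2 hb]; rfl
      · rw [if_neg hb]
        have h4 : lab e (v (i + 1)) (b (i + 1)) ≠ 1 := fun h => hb ((lab_mid h2).1 h)
        unfold cr
        rw [if_neg]
        rintro (h | h)
        · exact h4 h.2
        · exact absurd h.1 (by decide)
    · have h3 : ¬ |v i| < e := by
        intro h; have := (abs_lt.1 h).2; linarith
      have hA : ¬ (|v i| < e ∧ e ≤ v (i + 1)) := fun h => h3 h.1
      have hB : ¬ (e ≤ v i ∧ |v (i + 1)| < e) := fun h => h2 h.2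
      rw [if_neg hA, if_neg hB, add_zero, lab_zero h1]
      unfold cr
      rw [if_neg]
      rintro (h | h)
      · exact h2 (lab_eq_one h.2).1
      · exact absurd h.1 (by decide)
  · have hB : ¬ (e ≤ v i ∧ |v (i + 1)| < e) := fun h => h1 h.1
    rw [if_neg hB, zero_add]
    by_cases h2 : |v i| < e
    · by_cases h3 : e ≤ v (i + 1)
      · rw [if_pos (show |v i| < e ∧ e ≤ v (i + 1) from ⟨h2, h3⟩), lab_zero h3]
        by_cases hb : b i
        · rw [if_pos hb, (lab_mid h2).2 hb]; rfl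
        · rw [if_neg hb]
          have h4 : lab e (v i) (b i) ≠ 1 := fun h => hb ((lab_mid h2).1 h)
          unfold cr
          rw [if_neg]
          rintro (h | h)
          · exact absurd h.2 (by decide)
          · exact h4 h.1
      · have hA : ¬ (|v i| < e ∧ e ≤ v (i + 1)) := fun h => h3 h.2
        rw [if_neg hA]
        unfold cr
        rw [if_neg]
        rintro (h | h)
        · exact h1 (lab_eq_zero h.1)
        · exact h3 (lab_eq_zero h.2)
    · have hA : ¬ (|v i| < e ∧ e ≤ v (i + 1)) := fun h => h2 h.1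
      rw [if_neg hA]
      unfold cr
      rw [if_neg]
      rintro (h | h)
      · exact h1 (lab_eq_zero h.1)
      · exact h2 (lab_eq_one h.1).1

/-- if the parity for `B` is one, it is one for a class contained in `B` -/
theorem exists_class {α : Type*} {e : ℝ} {v : ℕ → ℝ} {N : ℕ} (y : ℕ → α) (B : Set α)
    (cls : α → Set α)
    (hself : ∀ i ≤ N, |v i| < e → y i ∈ cls (y i))
    (hcls : ∀ i ≤ N, ∀ j ≤ N, |v i| < e → |v j| < e → y i ∈ cls (y j) → cls (y i) = cls (y j))
    (hB : ∀ i ≤ N, ∀ j ≤ N, |v i| < e → |v j| < e → y i ∈ cls (y j) → (y i ∈ B ↔ y j ∈ B))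
    (h : par e v (fun i => y i ∈ B) N = 1) :
    ∃ i ≤ N, |v i| < e ∧ y i ∈ B ∧ par e v (fun k => y k ∈ cls (y i)) N = 1 := by
  classical
  by_contra hne
  push Not at hne
  have hmid : ∀ j ∈ chg e v N, mdx j ≤ N ∧ |v (mdx j)| < e := by
    rintro ⟨i, t⟩ hj
    unfold chg at hj
    rw [Finset.mem_filter, Finset.mem_product, Finset.mem_range] at hj
    obtain ⟨⟨h1, -⟩, h2⟩ := hj
    simp only at h1 h2
    rcases h2 with ⟨rfl, h2, h3⟩ | ⟨rfl, h2, h3⟩
    · exact ⟨by simp [mdx]; omega, by simpa [mdx] using h3⟩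
    · exact ⟨by simp [mdx]; omega, by simpa [mdx] using h2⟩
  rw [par_eq_sum, ← Finset.sum_filter] at h
  set J := (chg e v N).filter (fun j => y (mdx j) ∈ B) with hJ
  have h1 : ∑ j ∈ J, (1 : ZMod 2) = 0 := by
    rw [← Finset.sum_fiberwise_of_maps_to (g := fun j => cls (y (mdx j)))
      (t := J.image (fun j => cls (y (mdx j)))) (fun j hj => Finset.mem_image_of_mem _ hj)]
    refine Finset.sum_eq_zero fun c hc => ?_
    obtain ⟨j0, hj0, rfl⟩ := Finset.mem_image.1 hc
    rw [hJ, Finset.mem_filter] at hj0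
    obtain ⟨hm1, hm2⟩ := hmid j0 hj0.1
    have h2 := hne (mdx j0) hm1 hm2 hj0.2
    have h3 : par e v (fun k => y k ∈ cls (y (mdx j0))) N
        = ∑ j ∈ J.filter (fun j => cls (y (mdx j)) = cls (y (mdx j0))), 1 := by
      rw [par_eq_sum, ← Finset.sum_filter, hJ, Finset.filter_filter]
      refine Finset.sum_congr ?_ (fun _ _ => rfl)
      ext j
      simp only [Finset.mem_filter, and_congr_right_iff]
      intro hj
      obtain ⟨hj1, hj2⟩ := hmid j hj
      constructor
      · intro h4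
        exact ⟨(hB _ hj1 _ hm1 hj2 hm2 h4).2 hj0.2, hcls _ hj1 _ hm1 hj2 hm2 h4⟩
      · rintro ⟨h4, h5⟩
        rw [← h5]
        exact hself _ hj1 hj2
    rw [← h3]
    have h4 : ∀ a : ZMod 2, a ≠ 1 → a = 0 := by decide
    exact h4 _ h2
  rw [h1] at h
  exact absurd h (by decide)

end Pool.TL94
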