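import Pool.Agent.Work.MP_36677d_gt_h94.Seg
import Pool.Agent.Work.MP_36677d_gt_h94.Parity

/-! # The parity argument (helper94) -/

set_option autoImplicit false

open Set Filter Topology

namespace Pool.TL94

variable {M : Type*} [MetricSpace M]

/-- discretised data of a fixed point free map -/
structure Dat (H : M → ℝ → M) (v : M → ℝ → ℝ) (e δ : ℝ) (N : ℕ) : Prop where
  cH : Continuous (fun q : M × ℝ => H q.1 q.2)
  e_pos : 0 < e
  δ_pos : 0 < δ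
  N_pos : 0 < N
  v0 : ∀ x, e ≤ v x 0
  v1 : ∀ x, v x 1 ≤ -e
  vv : ∀ x x' t t', dist x x' ≤ δ → |t - t'| ≤ 1 / (N : ℝ) → t ∈ Icc (0:ℝ) 1 →
    t' ∈ Icc (0:ℝ) 1 → |v x t - v x' t'| < e
  av : ∀ x x' x'' t t', dist x x' ≤ δ → dist x x'' ≤ δ → |t - t'| ≤ 1 / (N : ℝ) →
    t ∈ Icc (0:ℝ) 1 → t' ∈ Icc (0:ℝ) 1 → |v x t| < e → H x' t' ≠ x''

/-- continua avoiding `x` do not leave or enter `S` -/
def Sat (x : M) (S : Set M) : Prop :=
  ∀ C : Set M, Cont C → x ∉ C → ∀ u ∈ C, ∀ w ∈ C, (u ∈ S ↔ w ∈ S)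

/-- the points beyond `x`, seen from `p` -/
def Bey (p x : M) : Set M := {w | x ∈ seg p w}

/-- the points joined to `w` by a continuum avoiding `z` -/
def cls (z w : M) : Set M := {u | z ∉ seg u w}

theorem sat_bey (p x : M) : Sat x (Bey p x) := fun _ hC hx _ hu _ hw => seg_iff hC hu hw hx

theorem sat_cls (z y : M) : Sat z (cls z y) := by
  intro C hC hx u hu w hw
  show z ∉ seg u y ↔ z ∉ seg w y
  rw [seg_comm u y, seg_comm w y]
  exact not_congr (seg_iff hC hu hw hx)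

/-- the parity at `x` for the set `S` -/
noncomputable def pa (H : M → ℝ → M) (v : M → ℝ → ℝ) (e : ℝ) (N : ℕ) (x : M) (S : Set M) :
    ZMod 2 :=
  par e (fun i => v x ((i : ℝ) / (N : ℝ))) (fun i => H x ((i : ℝ) / (N : ℝ)) ∈ S) N

section
variable {H : M → ℝ → M} {v : M → ℝ → ℝ} {e δ : ℝ} {N : ℕ}

theorem Dat.mem_t (D : Dat H v e δ N) {i : ℕ} (hi : i ≤ N) : (i : ℝ) / (N : ℝ) ∈ Icc (0:ℝ) 1 := by
  have h0 : (0 : ℝ) < N := by exact_mod_cast D.N_pos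
  refine ⟨by positivity, ?_⟩
  rw [div_le_one h0]
  exact_mod_cast hi

theorem Dat.t0 (D : Dat H v e δ N) (x : M) : e ≤ v x (((0 : ℕ) : ℝ) / (N : ℝ)) := by
  have := D.v0 x
  simpa using this

theorem Dat.tN (D : Dat H v e δ N) (x : M) : v x ((N : ℝ) / (N : ℝ)) ≤ -e := by
  have h0 : (N : ℝ) ≠ 0 := by exact_mod_cast D.N_pos.ne'
  rw [div_self h0]
  exact D.v1 x

theorem Dat.step (D : Dat H v e δ N) (i : ℕ) :
    |(i : ℝ) / (N : ℝ) - ((i + 1 : ℕ) : ℝ) / (N : ℝ)| ≤ 1 / (N : ℝ) := by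
  have h0 : (0 : ℝ) < N := by exact_mod_cast D.N_pos
  have h1 : (i : ℝ) / (N : ℝ) - ((i + 1 : ℕ) : ℝ) / (N : ℝ) = -(1 / (N : ℝ)) := by
    push_cast
    field_simp
    ring
  rw [h1, abs_neg, abs_of_pos (by positivity)]

theorem Dat.inv_nonneg (_ : Dat H v e δ N) : 0 ≤ 1 / (N : ℝ) := by positivity

theorem Dat.vstep (D : Dat H v e δ N) (x : M) {i : ℕ} (hi : i < N) :
    |v x ((i : ℝ) / (N : ℝ)) - v x (((i + 1 : ℕ) : ℝ) / (N : ℝ))| < e :=
  D.vv x x _ _ (by rw [dist_self]; exact D.δ_pos.le) (D.step i) (D.mem_t hi.le) (D.mem_t hi)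

theorem Dat.fib (D : Dat H v e δ N) {x : M} {S : Set M} (hS : Sat x S) {i : ℕ} (hi : i < N)
    (hv : |v x ((i : ℝ) / (N : ℝ))| < e) :
    H x ((i : ℝ) / (N : ℝ)) ∈ S ↔ H x (((i + 1 : ℕ) : ℝ) / (N : ℝ)) ∈ S := by
  have h0 : (0 : ℝ) < N := by exact_mod_cast D.N_pos
  have hle : (i : ℝ) / (N : ℝ) ≤ ((i + 1 : ℕ) : ℝ) / (N : ℝ) := by
    apply div_le_div_of_nonneg_right _ h0.le
    push_cast; linarith
  have hc : Continuous (fun t => H x t) := D.cH.comp (by fun_prop : Continuous fun t : ℝ => (x, t))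
  have hC : Cont ((fun t => H x t) '' Icc ((i : ℝ) / (N : ℝ)) (((i + 1 : ℕ) : ℝ) / (N : ℝ))) :=
    ⟨isCompact_Icc.image hc, isPreconnected_Icc.image _ hc.continuousOn⟩
  refine hS _ hC ?_ _ ⟨_, ⟨le_rfl, hle⟩, rfl⟩ _ ⟨_, ⟨hle, le_rfl⟩, rfl⟩
  rintro ⟨t, ht, htx⟩
  have h1 := D.step i
  have h2 := D.mem_t hi.le
  have h3 := D.mem_t (show i + 1 ≤ N from hi)
  refine D.av x x x _ t (by rw [dist_self]; exact D.δ_pos.le) (by rw [dist_self]; exact D.δ_pos.le)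
    ?_ h2 ⟨h2.1.trans ht.1, ht.2.trans h3.2⟩ hv htx
  refine le_trans ?_ h1
  rw [abs_sub_comm, abs_of_nonneg (by linarith [ht.1]), abs_sub_comm,
    abs_of_nonneg (by linarith)]
  linarith [ht.2]

/-- comparison of two neighbouring fibres -/
theorem Dat.cmp (D : Dat H v e δ N) {x x' : M} (hx : dist x x' ≤ δ) {S S' : Set M}
    (hS : Sat x S) (hS' : Sat x' S')
    (hSS : ∀ i ≤ N, |v x ((i : ℝ) / (N : ℝ))| < e →
      (H x ((i : ℝ) / (N : ℝ)) ∈ S ↔ H x' ((i : ℝ) / (N : ℝ)) ∈ S')) :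
    pa H v e N x S = pa H v e N x' S' := by
  refine par_eq D.e_pos (D.t0 x) (D.t0 x') (D.tN x) (D.tN x') (fun i hi => D.vstep x hi)
    (fun i hi => D.vstep x' hi) ?_ (fun i hi h _ => D.fib hS hi h)
    (fun i hi h _ => D.fib hS' hi h) (fun i hi h _ => hSS i hi h)
  intro i hi
  exact D.vv x x' _ _ hx (by rw [sub_self, abs_zero]; exact D.inv_nonneg) (D.mem_t hi) (D.mem_t hi)

/-- the parity is one at the base point -/
theorem Dat.base (D : Dat H v e δ N) (p : M) : pa H v e N p (Bey p p) = 1 := by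
  refine par_one D.e_pos (D.t0 p) (D.tN p) (fun i hi => D.vstep p hi) ?_
  intro i
  exact left_mem p _

/-- the continuum `H (γ [s, t] × {r})` -/
theorem Dat.cont_img (D : Dat H v e δ N) {γ : ℝ → M} {a b : M} (h : ArcFn γ a b) {s t : ℝ}
    (hs : 0 ≤ s) (ht : t ≤ 1) (r : ℝ) : Cont ((fun u => H (γ u) r) '' Icc s t) := by
  have h1 : ContinuousOn (fun u => H (γ u) r) (Icc s t) := by
    have h2 : ContinuousOn (fun u => (γ u, r)) (Icc s t) :=
      (h.cont.mono (Icc_subset_Icc hs ht)).prodMk continuousOn_const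
    exact D.cH.comp_continuousOn h2
  exact ⟨isCompact_Icc.image_of_continuousOn h1, isPreconnected_Icc.image _ h1⟩

/-- if `x` is near all points of `γ [s, t]`, and `|v x r| < e`, then for a point `q` near `x` the
truth of `q ∈ seg p (H (γ u) r)` does not depend on `u ∈ [s, t]` -/
theorem Dat.slide (D : Dat H v e δ N) {γ : ℝ → M} {a b : M} (h : ArcFn γ a b) {s t : ℝ}
    (hs : 0 ≤ s) (ht : t ≤ 1) {x : M} (hx : ∀ u ∈ Icc s t, dist x (γ u) ≤ δ) {i : ℕ} (hi : i ≤ N)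
    (hv : |v x ((i : ℝ) / (N : ℝ))| < e) {q : M} (hq : dist x q ≤ δ) (p : M) {u u' : ℝ}
    (hu : u ∈ Icc s t) (hu' : u' ∈ Icc s t) :
    q ∈ seg p (H (γ u) ((i : ℝ) / (N : ℝ))) ↔ q ∈ seg p (H (γ u') ((i : ℝ) / (N : ℝ))) := by
  refine seg_iff (D.cont_img h hs ht ((i : ℝ) / (N : ℝ))) ⟨u, hu, rfl⟩ ⟨u', hu', rfl⟩ ?_
  rintro ⟨w, hw, hwq⟩
  exact D.av x (γ w) q _ _ (hx w hw) hq (by rw [sub_self, abs_zero]; exact D.inv_nonneg)
    (D.mem_t hi) (D.mem_t hi) hv hwq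

/-- near points on an arc -/
theorem ArcFn.near {γ : ℝ → M} {a b : M} (h : ArcFn γ a b) {δ : ℝ} (hδ : 0 < δ) {s : ℝ}
    (hs : 0 ≤ s) (hs1 : s ≤ 1) :
    ∃ r > 0, ∀ u, 0 ≤ u → u ≤ 1 → |u - s| < r → dist (γ s) (γ u) ≤ δ := by
  have h1 := h.cont s ⟨hs, hs1⟩
  rw [Metric.continuousWithinAt_iff] at h1
  obtain ⟨r, hr, h2⟩ := h1 δ hδ
  refine ⟨r, hr, fun u hu hu1 hus => ?_⟩
  have h3 := h2 (x := u) ⟨hu, hu1⟩ (by rw [Real.dist_eq]; exact hus)
  rw [dist_comm] at h3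
  exact h3.le

/-- points of an arc avoid a closed set near a point outside it -/
theorem ArcFn.avoid {γ : ℝ → M} {a b : M} (h : ArcFn γ a b) {K : Set M} (hK : IsClosed K) {s : ℝ}
    (hs : 0 ≤ s) (hs1 : s ≤ 1) (hsK : γ s ∉ K) :
    ∃ r > 0, ∀ u, 0 ≤ u → u ≤ 1 → |u - s| < r → γ u ∉ K := by
  have h1 := h.cont s ⟨hs, hs1⟩
  have h2 : Kᶜ ∈ 𝓝 (γ s) := hK.isOpen_compl.mem_nhds hsK
  have h3 := h1 h2
  rw [mem_map, mem_nhdsWithin_iff_exists_mem_nhds_inter] at h3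
  obtain ⟨U, hU, hU2⟩ := h3
  obtain ⟨r, hr, hr2⟩ := Metric.mem_nhds_iff.1 hU
  refine ⟨r, hr, fun u hu hu1 hus => ?_⟩
  exact hU2 ⟨hr2 (by rw [Metric.mem_ball, Real.dist_eq]; exact hus), hu, hu1⟩

/-- left continuity of the parity along an arc -/
theorem Dat.left (D : Dat H v e δ N) (hHU : HU M) {p b : M} {γ : ℝ → M} (h : ArcFn γ p b) {s : ℝ}
    (hs : 0 < s) (hs1 : s ≤ 1) :
    ∃ r > 0, ∀ u, 0 ≤ u → u ≤ s → s - u < r →
      pa H v e N (γ u) (Bey p (γ u)) = pa H v e N (γ s) (Bey p (γ s)) := by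
  obtain ⟨r0, hr0, h0⟩ := h.near D.δ_pos hs.le hs1
  -- the requirement for each index
  have key : ∀ i : ℕ, ∃ r > 0, i ≤ N → |v (γ s) ((i : ℝ) / (N : ℝ))| < e →
      ∀ u, 0 ≤ u → u ≤ s → s - u < r → (H (γ s) ((i : ℝ) / (N : ℝ)) ∈ Bey p (γ s) ↔
        H (γ u) ((i : ℝ) / (N : ℝ)) ∈ Bey p (γ u)) := by
    intro i
    by_cases hb : H (γ s) ((i : ℝ) / (N : ℝ)) ∈ Bey p (γ s)
    · refine ⟨r0, hr0, fun hi hv u hu hus hur => ?_⟩
      have hnear : ∀ w ∈ Icc u s, dist (γ s) (γ w) ≤ δ := fun w hw =>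
        h0 w (hu.trans hw.1) (hw.2.trans hs1) (by
          rw [abs_sub_comm, abs_of_nonneg (by linarith [hw.2])]; linarith [hw.1])
      have h1 := D.slide h hu hs1 hnear hi hv (hnear u ⟨le_rfl, hus⟩) p ⟨hus, le_rfl⟩ ⟨le_rfl, hus⟩
      have h2 : γ u ∈ seg p (γ s) := by
        rw [← h.zero]
        exact (h.mem_seg_iff hHU le_rfl hs1 hs.le hu (hus.trans hs1)).2 ⟨hu, hus⟩
      exact ⟨fun _ => h1.1 (seg_mono hb h2), fun _ => hb⟩
    · obtain ⟨K, hK, hpK, hyK, hxK⟩ := not_mem_seg.1 hb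
      obtain ⟨r1, hr1, h1⟩ := h.avoid hK.cpt.isClosed hs.le hs1 hxK
      refine ⟨min r0 r1, lt_min hr0 hr1, fun hi hv u hu hus hur => ?_⟩
      have hur0 := lt_of_lt_of_le hur (min_le_left _ _)
      have hur1 := lt_of_lt_of_le hur (min_le_right _ _)
      have hnear : ∀ w ∈ Icc u s, dist (γ s) (γ w) ≤ δ := fun w hw =>
        h0 w (hu.trans hw.1) (hw.2.trans hs1) (by
          rw [abs_sub_comm, abs_of_nonneg (by linarith [hw.2])]; linarith [hw.1])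
      have h2 := D.slide h hu hs1 hnear hi hv (hnear u ⟨le_rfl, hus⟩) p ⟨hus, le_rfl⟩ ⟨le_rfl, hus⟩
      have h3 : γ u ∉ seg p (H (γ s) ((i : ℝ) / (N : ℝ))) := by
        intro h4
        exact h1 u hu (hus.trans hs1) (by rw [abs_sub_comm, abs_of_nonneg (by linarith)]; exact hur1)
          (h4 K hK hpK hyK)
      exact ⟨fun h => absurd h hb, fun h => absurd (h2.2 h) h3⟩
  choose r hr hr2 using key
  obtain ⟨R, hR, hR2⟩ : ∃ R > 0, R ≤ r0 ∧ ∀ i ≤ N, R ≤ r i := by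
    have hne : (Finset.range (N + 1)).Nonempty := ⟨0, by simp⟩
    refine ⟨min r0 ((Finset.range (N + 1)).inf' hne r), ?_, min_le_left _ _, ?_⟩
    · refine lt_min hr0 ?_
      rw [Finset.lt_inf'_iff]
      exact fun i _ => hr i
    · intro i hi
      exact (min_le_right _ _).trans (Finset.inf'_le _ (by simp; omega))
  refine ⟨R, hR, fun u hu hus hur => ?_⟩
  refine (D.cmp ?_ (sat_bey p (γ s)) (sat_bey p (γ u)) ?_).symm
  · exact h0 u hu (hus.trans hs1) (by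
      rw [abs_sub_comm, abs_of_nonneg (by linarith)]; linarith [hR2.1])
  · intro i hi hv
    exact hr2 i hi hv u hu hus (lt_of_lt_of_le hur (hR2.2 i hi))

/-- every point of `P` is the end of an arc starting at `p` -/
def ArcTo (p : M) (P : M → Prop) : Prop := ∀ x, P x → x ≠ p → ∃ γ : ℝ → M, ArcFn γ p x

/-- forward step -/
theorem Dat.forward (D : Dat H v e δ N) (hHU : HU M) {p : M} {P : M → Prop} (hP : ArcTo p P)
    (hPH : ∀ x, P x → ∀ t ∈ Icc (0:ℝ) 1, P (H x t)) {z : M} (hz : P z)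
    (h1 : pa H v e N z (Bey p z) = 1) :
    ∃ y, P y ∧ ∃ γ : ℝ → M, ArcFn γ p y ∧ ∃ s, 0 ≤ s ∧ s < 1 ∧ γ s = z ∧ ∃ r > 0,
      ∀ u, s < u → u ≤ 1 → u - s < r → pa H v e N (γ u) (Bey p (γ u)) = 1 := by
  have hav : ∀ i ≤ N, |v z ((i : ℝ) / (N : ℝ))| < e → H z ((i : ℝ) / (N : ℝ)) ≠ z := by
    intro i hi hv
    exact D.av z z z _ _ (by rw [dist_self]; exact D.δ_pos.le) (by rw [dist_self]; exact D.δ_pos.le)
      (by rw [sub_self, abs_zero]; exact D.inv_nonneg) (D.mem_t hi) (D.mem_t hi) hv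
  obtain ⟨j, hj, hvj, hyB, hpar⟩ := exists_class (fun i : ℕ => H z ((i : ℝ) / (N : ℝ))) (Bey p z)
    (cls z) (e := e) (v := fun i : ℕ => v z ((i : ℝ) / (N : ℝ))) (N := N) (by
      intro i hi hv
      show z ∉ seg _ _
      rw [seg_self]
      exact fun h => hav i hi hv (mem_singleton_iff.1 h).symm) (by
      intro i hi k hk hvi hvk h
      obtain ⟨C, hC, h2, h3, h4⟩ := not_mem_seg.1 (show z ∉ seg _ _ from h)
      ext u
      show z ∉ seg u _ ↔ z ∉ seg u _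
      exact not_congr (seg_iff hC h2 h3 h4)) (by
      intro i hi k hk hvi hvk h
      obtain ⟨C, hC, h2, h3, h4⟩ := not_mem_seg.1 (show z ∉ seg _ _ from h)
      exact seg_iff hC h2 h3 h4) h1
  set y := H z ((j : ℝ) / (N : ℝ)) with hy
  have hyz : y ≠ z := hav j hj hvj
  have hPy : P y := hPH z hz _ (D.mem_t hj)
  have hyp : y ≠ p := by
    intro h
    have h2 : z ∈ seg p y := hyB
    rw [h, seg_self] at h2
    exact hyz (h.trans (mem_singleton_iff.1 h2).symm)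
  obtain ⟨γ, hγ⟩ := hP y hPy hyp
  obtain ⟨s, hs0, hs1, hsz⟩ := hγ.exists_of_mem hHU (show z ∈ seg p y from hyB)
  have hs1' : s < 1 := by
    rcases hs1.lt_or_eq with h | h
    · exact h
    · exfalso; rw [h, hγ.one] at hsz; exact hyz hsz
  refine ⟨y, hPy, γ, hγ, s, hs0, hs1', hsz, ?_⟩
  obtain ⟨r0, hr0, h0⟩ := hγ.near D.δ_pos hs0 hs1
  have key : ∀ i : ℕ, ∃ r > 0, i ≤ N → |v z ((i : ℝ) / (N : ℝ))| < e →
      ∀ u, s < u → u ≤ 1 → u - s < r → (H z ((i : ℝ) / (N : ℝ)) ∈ cls z y ↔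
        H (γ u) ((i : ℝ) / (N : ℝ)) ∈ Bey p (γ u)) := by
    intro i
    -- reduction to the point `H z (i / N)`
    have hred : i ≤ N → |v z ((i : ℝ) / (N : ℝ))| < e → ∀ u, s < u → u ≤ 1 → u - s < r0 →
        (γ u ∈ seg p (H z ((i : ℝ) / (N : ℝ))) ↔ γ u ∈ seg p (H (γ u) ((i : ℝ) / (N : ℝ)))) := by
      intro hi hv u hsu hu1 hur
      have hnear : ∀ w ∈ Icc s u, dist z (γ w) ≤ δ := fun w hw => by
        rw [← hsz]
        exact h0 w (hs0.trans hw.1) (hw.2.trans hu1) (by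
          rw [abs_of_nonneg (by linarith [hw.1])]; linarith [hw.2])
      have h2 := D.slide hγ hs0 hu1 hnear hi hv (hnear u ⟨hsu.le, le_rfl⟩) p ⟨le_rfl, hsu.le⟩
        ⟨hsu.le, le_rfl⟩
      rwa [hsz] at h2
    by_cases hi : i ≤ N ∧ |v z ((i : ℝ) / (N : ℝ))| < e
    swap
    · exact ⟨1, one_pos, fun h2 h3 => absurd ⟨h2, h3⟩ hi⟩
    by_cases hc : H z ((i : ℝ) / (N : ℝ)) ∈ cls z y
    · obtain ⟨K, hK, hyiK, hyK, hzK⟩ := not_mem_seg.1 (show z ∉ seg _ _ from hc)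
      obtain ⟨r1, hr1, h2⟩ := hγ.avoid hK.cpt.isClosed hs0 hs1 (by rw [hsz]; exact hzK)
      refine ⟨min r0 r1, lt_min hr0 hr1, fun _ _ u hsu hu1 hur => ?_⟩
      have hur0 := lt_of_lt_of_le hur (min_le_left _ _)
      have hur1 := lt_of_lt_of_le hur (min_le_right _ _)
      refine iff_of_true hc ((hred hi.1 hi.2 u hsu hu1 hur0).1 ?_)
      have h3 := h2 u (hs0.trans hsu.le) hu1 (by rw [abs_of_nonneg (by linarith)]; exact hur1)
      exact (seg_iff hK hyiK hyK h3).2 (hγ.mem_seg hHU (hs0.trans hsu.le) hu1)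
    · by_cases hbi : H z ((i : ℝ) / (N : ℝ)) ∈ Bey p z
      · -- `z` separates `H z (i / N)` and `y`
        refine ⟨r0, hr0, fun _ _ u hsu hu1 hur => ?_⟩
        refine iff_of_false hc ?_
        intro h3
        have h4 := (hred hi.1 hi.2 u hsu hu1 hur).2 h3
        have hyi : H z ((i : ℝ) / (N : ℝ)) ≠ p := by
          intro h
          have h5 : z ∈ seg p _ := hbi
          rw [h, seg_self] at h5
          exact hav i hi.1 hi.2 (h.trans (mem_singleton_iff.1 h5).symm)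
        obtain ⟨β, hβ⟩ := hP _ (hPH z hz _ (D.mem_t hi.1)) hyi
        obtain ⟨s1, hs10, hs11, hsz1⟩ := hβ.exists_of_mem hHU (show z ∈ seg p _ from hbi)
        obtain ⟨w, hw0, hw1, hwu⟩ := hβ.exists_of_mem hHU h4
        have h5 : s1 < w := by
          by_contra h6
          push Not at h6
          have h7 : β w ∈ seg (β 0) (β s1) :=
            (hβ.mem_seg_iff hHU le_rfl hs11 hs10 hw0 hw1).2 ⟨hw0, h6⟩
          rw [hβ.zero, hsz1, ← hsz, hwu, ← hγ.zero,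
            hγ.mem_seg_iff hHU le_rfl hs1 hs0 (hs0.trans hsu.le) hu1] at h7
          linarith [h7.2]
        have hA : Cont (β '' Icc w 1) := hβ.cont_image hw0 le_rfl
        have hB : Cont (γ '' Icc u 1) := hγ.cont_image (hs0.trans hsu.le) le_rfl
        have hAB : Cont (β '' Icc w 1 ∪ γ '' Icc u 1) :=
          hA.union hB ⟨γ u, ⟨w, ⟨le_rfl, hw1⟩, hwu⟩, u, ⟨le_rfl, hu1⟩, rfl⟩
        have h8 : z ∈ seg (H z ((i : ℝ) / (N : ℝ))) y := not_not.1 hc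
        rcases h8 _ hAB (Or.inl ⟨1, ⟨hw1, le_rfl⟩, hβ.one⟩) (Or.inr ⟨1, ⟨hu1, le_rfl⟩, hγ.one⟩)
          with ⟨w', hw', h9⟩ | ⟨w', hw', h9⟩
        · have h10 := hβ.inj ⟨hw0.trans hw'.1, hw'.2⟩ ⟨hs10, hs11⟩ (h9.trans hsz1.symm)
          linarith [hw'.1]
        · have h10 := hγ.inj ⟨(hs0.trans hsu.le).trans hw'.1, hw'.2⟩ ⟨hs0, hs1⟩ (h9.trans hsz.symm)
          linarith [hw'.1]
      · obtain ⟨K, hK, hpK, hyK, hzK⟩ := not_mem_seg.1 (show z ∉ seg _ _ from hbi)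
        obtain ⟨r1, hr1, h2⟩ := hγ.avoid hK.cpt.isClosed hs0 hs1 (by rw [hsz]; exact hzK)
        refine ⟨min r0 r1, lt_min hr0 hr1, fun _ _ u hsu hu1 hur => ?_⟩
        have hur0 := lt_of_lt_of_le hur (min_le_left _ _)
        have hur1 := lt_of_lt_of_le hur (min_le_right _ _)
        refine iff_of_false hc ?_
        intro h3
        have h4 := (hred hi.1 hi.2 u hsu hu1 hur0).2 h3
        exact h2 u (hs0.trans hsu.le) hu1 (by rw [abs_of_nonneg (by linarith)]; exact hur1)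
          (h4 K hK hpK hyK)
  choose r hr hr2 using key
  obtain ⟨R, hR, hR2⟩ : ∃ R > 0, R ≤ r0 ∧ ∀ i ≤ N, R ≤ r i := by
    have hne : (Finset.range (N + 1)).Nonempty := ⟨0, by simp⟩
    refine ⟨min r0 ((Finset.range (N + 1)).inf' hne r), ?_, min_le_left _ _, ?_⟩
    · refine lt_min hr0 ?_
      rw [Finset.lt_inf'_iff]
      exact fun i _ => hr i
    · intro i hi
      exact (min_le_right _ _).trans (Finset.inf'_le _ (by simp; omega))
  refine ⟨R, hR, fun u hsu hu1 hur => ?_⟩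
  rw [← D.cmp (x := z) ?_ (sat_cls z y) (sat_bey p (γ u)) ?_]
  · exact hpar
  · rw [← hsz]
    exact h0 u (hs0.trans hsu.le) hu1 (by rw [abs_of_nonneg (by linarith)]; linarith [hR2.1])
  · intro i hi hv
    exact hr2 i hi hv u hsu hu1 (lt_of_lt_of_le hur (hR2.2 i hi))

end

end Pool.TL94
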