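import Pool.Agent.Work.MP_36677d_gt_h94.Core

/-! # The parity argument, conclusion (helper94) -/

set_option autoImplicit false

open Set Filter Topology

namespace Pool.TL94

variable {M : Type*} [MetricSpace M]

theorem isClosed_seg (a b : M) : IsClosed (seg a b) := by
  have h : seg a b = ⋂ C : {C : Set M // Cont C ∧ a ∈ C ∧ b ∈ C}, (C : Set M) := by
    ext x
    simp only [mem_iInter, Subtype.forall]
    exact ⟨fun h C hC => h C hC.1 hC.2.1 hC.2.2, fun h C h1 h2 h3 => h C ⟨h1, h2, h3⟩⟩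
  rw [h]
  exact isClosed_iInter fun C => C.2.1.cpt.isClosed

/-- membership in an initial segment -/
theorem ArcFn.mem_iff0 (hHU : HU M) {γ : ℝ → M} {a b : M} (h : ArcFn γ a b) {t u : ℝ}
    (ht0 : 0 ≤ t) (ht : t ≤ 1) (hu : 0 ≤ u) (hu' : u ≤ 1) : γ u ∈ seg a (γ t) ↔ u ≤ t := by
  have := h.mem_seg_iff hHU le_rfl ht ht0 hu hu'
  rw [h.zero] at this
  rw [this]
  exact ⟨fun h => h.2, fun h => ⟨hu, h⟩⟩

theorem seg_trans {p a b c : M} (h : a ∈ seg p b) (h' : b ∈ seg p c) : a ∈ seg p c :=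
  seg_mono h' h

/-- increasing sequences of points of `P` are bounded in `P` -/
def Bdd (p : M) (P : M → Prop) : Prop :=
  ∀ z : ℕ → M, (∀ n, P (z n)) → (∀ n, z n ∈ seg p (z (n + 1))) → ∃ w, P w ∧ ∀ n, z n ∈ seg p w

theorem exists_basis_seq [SecondCountableTopology M] :
    ∃ U : ℕ → Set M, (∀ n, IsOpen (U n)) ∧
      ∀ (x : M) (V : Set M), IsOpen V → x ∈ V → ∃ n, x ∈ U n ∧ U n ⊆ V := by
  obtain ⟨b, hbc, -, hb⟩ := TopologicalSpace.exists_countable_basis M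
  rcases b.eq_empty_or_nonempty with h | h
  · refine ⟨fun _ => ∅, fun _ => isOpen_empty, fun x V hV hx => ?_⟩
    obtain ⟨u, hu, -, -⟩ := hb.exists_subset_of_mem_open hx hV
    rw [h] at hu
    exact absurd hu (notMem_empty u)
  · obtain ⟨U, hU⟩ := hbc.exists_eq_range h
    refine ⟨U, fun n => hb.isOpen (by rw [hU]; exact ⟨n, rfl⟩), fun x V hV hx => ?_⟩
    obtain ⟨u, hu, hxu, huV⟩ := hb.exists_subset_of_mem_open hx hV
    rw [hU] at hu
    obtain ⟨n, rfl⟩ := hu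
    exact ⟨n, hxu, huV⟩

theorem Dat.false [SecondCountableTopology M] {H : M → ℝ → M} {v : M → ℝ → ℝ} {e δ : ℝ} {N : ℕ}
    (D : Dat H v e δ N) (hHU : HU M) {p : M} {P : M → Prop} (hp : P p) (hP : ArcTo p P)
    (hdown : ∀ y, P y → ∀ x ∈ seg p y, P x)
    (hPH : ∀ x, P x → ∀ t ∈ Icc (0:ℝ) 1, P (H x t)) (hN : Bdd p P) : False := by
  obtain ⟨Q, hQdef⟩ : ∃ Q : M → Prop, ∀ z, Q z ↔ P z ∧ ∀ x ∈ seg p z,
    pa H v e N x (Bey p x) = 1 := ⟨_, fun _ => Iff.rfl⟩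
  have hQp : Q p := by
    rw [hQdef]
    refine ⟨hp, fun x hx => ?_⟩
    rw [seg_self] at hx
    rw [mem_singleton_iff.1 hx]
    exact D.base p
  -- extension
  have hext : ∀ z, Q z → ∃ z', Q z' ∧ z ∈ seg p z' ∧ z' ∉ seg p z := by
    intro z hz
    rw [hQdef] at hz
    obtain ⟨y, hPy, γ, hγ, s, hs0, hs1, hsz, r, hr, h1⟩ :=
      D.forward hHU hP hPH hz.1 (hz.2 z (right_mem p z))
    obtain ⟨u, hsu, hu1, hur⟩ : ∃ u, s < u ∧ u ≤ 1 ∧ u - s < r := by
      refine ⟨s + min (r / 2) (1 - s), ?_, ?_, ?_⟩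
      · have : 0 < min (r / 2) (1 - s) := lt_min (by linarith) (by linarith)
        linarith
      · have := min_le_right (r / 2) (1 - s)
        linarith
      · have := min_le_left (r / 2) (1 - s)
        linarith
    have hu0 : 0 ≤ u := hs0.trans hsu.le
    refine ⟨γ u, ?_, ?_, ?_⟩
    · rw [hQdef]
      refine ⟨hdown y hPy _ (hγ.mem_seg hHU hu0 hu1), fun x hx => ?_⟩
      rw [← hγ.zero, hγ.seg_eq hHU le_rfl hu1 hu0] at hx
      obtain ⟨w, hw, rfl⟩ := hx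
      rcases le_or_gt w s with h2 | h2
      · apply hz.2
        rw [← hsz]
        exact (hγ.mem_iff0 hHU hs0 hs1.le hw.1 (hw.2.trans hu1)).2 h2
      · exact h1 w h2 (hw.2.trans hu1) (by linarith [hw.2])
    · rw [← hsz]
      exact (hγ.mem_iff0 hHU hu0 hu1 hs0 hs1.le).2 hsu.le
    · rw [← hsz, hγ.mem_iff0 hHU hs0 hs1.le hu0 hu1]
      exact not_le.2 hsu
  -- suprema
  have hsup : ∀ z : ℕ → M, (∀ n, Q (z n)) → (∀ n, z n ∈ seg p (z (n + 1))) →
      ∃ z', Q z' ∧ ∀ n, z n ∈ seg p z' := by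
    intro z hz hzz
    obtain ⟨w, hPw, hw⟩ := hN z (fun n => ((hQdef _).1 (hz n)).1) hzz
    by_cases hwp : w = p
    · refine ⟨p, hQp, fun n => ?_⟩
      have := hw n
      rwa [hwp] at this
    · obtain ⟨γ, hγ⟩ := hP w hPw hwp
      have h1 : ∀ n, ∃ u, 0 ≤ u ∧ u ≤ 1 ∧ γ u = z n := fun n => hγ.exists_of_mem hHU (hw n)
      choose u hu0 hu1 huz using h1
      have hbdd : BddAbove (range u) := ⟨1, by rintro _ ⟨n, rfl⟩; exact hu1 n⟩
      set U := sSup (range u) with hU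
      have hle : ∀ n, u n ≤ U := fun n => le_csSup hbdd ⟨n, rfl⟩
      have hU0 : 0 ≤ U := (hu0 0).trans (hle 0)
      have hU1 : U ≤ 1 := csSup_le ⟨u 0, 0, rfl⟩ (by rintro _ ⟨n, rfl⟩; exact hu1 n)
      have hlt : ∀ s, 0 ≤ s → s < U → pa H v e N (γ s) (Bey p (γ s)) = 1 := by
        intro s hs0 hsU
        obtain ⟨_, ⟨n, rfl⟩, hn⟩ := exists_lt_of_lt_csSup (range_nonempty u) hsU
        apply ((hQdef _).1 (hz n)).2
        rw [← huz n]
        exact (hγ.mem_iff0 hHU (hu0 n) (hu1 n) hs0 (hsU.le.trans hU1)).2 hn.le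
      refine ⟨γ U, ?_, fun n => ?_⟩
      · rw [hQdef]
        refine ⟨hdown w hPw _ (hγ.mem_seg hHU hU0 hU1), fun x hx => ?_⟩
        rw [← hγ.zero, hγ.seg_eq hHU le_rfl hU1 hU0] at hx
        obtain ⟨s, hs, rfl⟩ := hx
        rcases hs.2.lt_or_eq with h2 | h2
        · exact hlt s hs.1 h2
        · rw [h2]
          rcases hU0.lt_or_eq with h3 | h3
          · obtain ⟨r, hr, h4⟩ := D.left hHU hγ h3 hU1
            have h5 : max 0 (U - r / 2) < U := max_lt h3 (by linarith)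
            rw [← h4 (max 0 (U - r / 2)) (le_max_left _ _) h5.le (by
              have := le_max_right 0 (U - r / 2); linarith)]
            exact hlt _ (le_max_left _ _) h5
          · rw [← h3, hγ.zero]
            exact ((hQdef _).1 hQp).2 p (left_mem p p)
      · rw [← huz n]
        exact (hγ.mem_iff0 hHU hU0 hU1 (hu0 n) (hu1 n)).2 (hle n)
  -- the greedy sequence
  obtain ⟨U, -, hUb⟩ := exists_basis_seq (M := M)
  classical
  let f : ℕ → {z // Q z} := fun n => Nat.rec ⟨p, hQp⟩ (fun n z =>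
    if h : ∃ z' : {z // Q z}, z.1 ∈ seg p z'.1 ∧ (seg p z'.1 ∩ U n).Nonempty then h.choose else z) n
  have hf : ∀ n, f (n + 1) = if h : ∃ z' : {z // Q z}, (f n).1 ∈ seg p z'.1 ∧
      (seg p z'.1 ∩ U n).Nonempty then h.choose else f n := fun _ => rfl
  have hf1 : ∀ n, (f n).1 ∈ seg p (f (n + 1)).1 := by
    intro n
    rw [hf]
    split_ifs with h
    · exact h.choose_spec.1
    · exact right_mem _ _
  obtain ⟨z1, hz1, hz1'⟩ := hsup (fun n => (f n).1) (fun n => (f n).2) hf1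
  obtain ⟨z2, hz2, hz12, hz21⟩ := hext z1 hz1
  obtain ⟨n, hn1, hn2⟩ := hUb z2 (seg p z1)ᶜ (isClosed_seg p z1).isOpen_compl hz21
  have h : ∃ z' : {z // Q z}, (f n).1 ∈ seg p z'.1 ∧ (seg p z'.1 ∩ U n).Nonempty :=
    ⟨⟨z2, hz2⟩, seg_trans (hz1' n) hz12, z2, right_mem p z2, hn1⟩
  have h2 : (seg p (f (n + 1)).1 ∩ U n).Nonempty := by
    rw [hf, dif_pos h]
    exact h.choose_spec.2
  obtain ⟨x, hx1, hx2⟩ := h2
  exact hn2 hx2 (seg_mono (hz1' (n + 1)) hx1)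

end Pool.TL94
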