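import Mathlib

/-! # Segments in hereditarily unicoherent spaces (helper94)

`seg a b` is the intersection of all compact connected sets containing `a` and `b`. -/

set_option autoImplicit false

open Set Filter Topology

namespace Pool.TL94

/-- two compact connected sets have connected intersection -/
def HU (M : Type*) [TopologicalSpace M] : Prop :=
  ∀ A B : Set M, IsCompact A → IsPreconnected A → IsCompact B → IsPreconnected B →
    IsPreconnected (A ∩ B)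

section
variable {M : Type*} [TopologicalSpace M]

/-- a compact connected set -/
structure Cont (C : Set M) : Prop where
  cpt : IsCompact C
  con : IsPreconnected C

theorem Cont.union {A B : Set M} (hA : Cont A) (hB : Cont B) (h : (A ∩ B).Nonempty) :
    Cont (A ∪ B) :=
  ⟨hA.cpt.union hB.cpt, hA.con.union' h hB.con⟩

/-- the intersection of all continua containing `a` and `b` -/
def seg (a b : M) : Set M := {x | ∀ C : Set M, Cont C → a ∈ C → b ∈ C → x ∈ C}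

theorem seg_sub {a b : M} {C : Set M} (hC : Cont C) (ha : a ∈ C) (hb : b ∈ C) : seg a b ⊆ C :=
  fun _ hx => hx C hC ha hb

theorem left_mem (a b : M) : a ∈ seg a b := fun _ _ ha _ => ha

theorem right_mem (a b : M) : b ∈ seg a b := fun _ _ _ hb => hb

theorem seg_comm (a b : M) : seg a b = seg b a := by
  ext x
  exact ⟨fun h C hC hb ha => h C hC ha hb, fun h C hC ha hb => h C hC hb ha⟩

theorem cont_singleton (a : M) : Cont ({a} : Set M) := ⟨isCompact_singleton, isPreconnected_singleton⟩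

theorem seg_self (a : M) : seg a a = {a} := by
  ext x
  constructor
  · intro h
    exact h {a} (cont_singleton a) rfl rfl
  · rintro rfl
    exact left_mem x x

theorem not_mem_seg {a b x : M} : x ∉ seg a b ↔ ∃ C : Set M, Cont C ∧ a ∈ C ∧ b ∈ C ∧ x ∉ C := by
  constructor
  · intro h
    simp only [seg, mem_ofPred_eq] at h
    push Not at h
    obtain ⟨C, h1, h2, h3, h4⟩ := h
    exact ⟨C, h1, h2, h3, h4⟩
  · rintro ⟨C, h1, h2, h3, h4⟩ h
    exact h4 (h C h1 h2 h3)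

/-- monotonicity: if `x ∈ seg a b` then `seg a x ⊆ seg a b` -/
theorem seg_mono {a b x : M} (h : x ∈ seg a b) : seg a x ⊆ seg a b :=
  fun _ hy C hC ha hb => hy C hC ha (h C hC ha hb)

/-- if a continuum avoiding `x` joins `u` and `w` then `x ∈ seg a u ↔ x ∈ seg a w` -/
theorem seg_iff {a u w x : M} {C : Set M} (hC : Cont C) (hu : u ∈ C) (hw : w ∈ C) (hx : x ∉ C) :
    x ∈ seg a u ↔ x ∈ seg a w := by
  have key : ∀ u w : M, u ∈ C → w ∈ C → x ∈ seg a u → x ∈ seg a w := by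
    intro u w hu hw h
    by_contra hn
    obtain ⟨K, hK, ha, hwK, hxK⟩ := not_mem_seg.1 hn
    have h1 := h (K ∪ C) (hK.union hC ⟨w, hwK, hw⟩) (Or.inl ha) (Or.inr hu)
    rcases h1 with h1 | h1
    · exact hxK h1
    · exact hx h1
  exact ⟨key u w hu hw, key w u hw hu⟩

end

/-- an injective path from `a` to `b`, parametrised by `[0, 1]` -/
structure ArcFn {M : Type*} [TopologicalSpace M] (γ : ℝ → M) (a b : M) : Prop where
  cont : ContinuousOn γ (Icc 0 1)
  inj : InjOn γ (Icc 0 1)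
  zero : γ 0 = a
  one : γ 1 = b

section arcs
variable {M : Type*} [TopologicalSpace M] {γ : ℝ → M} {a b : M}

theorem ArcFn.cont_image (h : ArcFn γ a b) {s t : ℝ} (hs : 0 ≤ s) (ht : t ≤ 1) :
    Cont (γ '' Icc s t) :=
  ⟨isCompact_Icc.image_of_continuousOn (h.cont.mono (Icc_subset_Icc hs ht)),
    isPreconnected_Icc.image _ (h.cont.mono (Icc_subset_Icc hs ht))⟩

variable [T2Space M]

/-- subarcs are irreducible: every continuum containing `γ s` and `γ t` contains `γ '' [s, t]` -/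
theorem ArcFn.sub (hHU : HU M) (h : ArcFn γ a b) {s t : ℝ} (hs : 0 ≤ s) (ht : t ≤ 1)
    (hst : s ≤ t) {C : Set M} (hC : Cont C) (hsC : γ s ∈ C) (htC : γ t ∈ C) :
    γ '' Icc s t ⊆ C := by
  rintro _ ⟨u, hu, rfl⟩
  by_contra huC
  have hA := h.cont_image hs (hu.2.trans ht)
  have hB := h.cont_image (hs.trans hu.1) ht
  have hK : IsPreconnected (C ∩ γ '' Icc s t) := hHU _ _ hC.cpt hC.con
    (h.cont_image hs ht).cpt (h.cont_image hs ht).con
  have h1 := isPreconnected_closed_iff.1 hK (γ '' Icc s u) (γ '' Icc u t) hA.cpt.isClosed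
    hB.cpt.isClosed (by
      rintro _ ⟨_, v, hv, rfl⟩
      rcases le_total v u with h2 | h2
      · exact Or.inl ⟨v, ⟨hv.1, h2⟩, rfl⟩
      · exact Or.inr ⟨v, ⟨h2, hv.2⟩, rfl⟩)
    ⟨γ s, ⟨hsC, s, ⟨le_rfl, hst⟩, rfl⟩, s, ⟨le_rfl, hu.1⟩, rfl⟩
    ⟨γ t, ⟨htC, t, ⟨hst, le_rfl⟩, rfl⟩, t, ⟨hu.2, le_rfl⟩, rfl⟩
  obtain ⟨x, ⟨hxC, -⟩, ⟨v, hv, hvx⟩, ⟨v', hv', hvx'⟩⟩ := h1
  have h2 : v = v' := h.inj ⟨hs.trans hv.1, hv.2.trans (hu.2.trans ht)⟩
    ⟨(hs.trans hu.1).trans hv'.1, hv'.2.trans ht⟩ (hvx.trans hvx'.symm)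
  have h3 : v = u := le_antisymm hv.2 (h2 ▸ hv'.1)
  rw [h3] at hvx
  exact huC (hvx ▸ hxC)

theorem ArcFn.seg_eq (hHU : HU M) (h : ArcFn γ a b) {s t : ℝ} (hs : 0 ≤ s) (ht : t ≤ 1)
    (hst : s ≤ t) : seg (γ s) (γ t) = γ '' Icc s t := by
  refine Subset.antisymm ?_ ?_
  · exact seg_sub (h.cont_image hs ht) ⟨s, ⟨le_rfl, hst⟩, rfl⟩ ⟨t, ⟨hst, le_rfl⟩, rfl⟩
  · intro x hx C hC h1 h2
    exact h.sub hHU hs ht hst hC h1 h2 hx

theorem ArcFn.mem_seg_iff (hHU : HU M) (h : ArcFn γ a b) {s t u : ℝ} (hs : 0 ≤ s) (ht : t ≤ 1)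
    (hst : s ≤ t) (hu : 0 ≤ u) (hu' : u ≤ 1) : γ u ∈ seg (γ s) (γ t) ↔ s ≤ u ∧ u ≤ t := by
  rw [h.seg_eq hHU hs ht hst]
  constructor
  · rintro ⟨v, hv, hvu⟩
    have := h.inj ⟨hs.trans hv.1, hv.2.trans ht⟩ ⟨hu, hu'⟩ hvu
    rw [← this]
    exact hv
  · exact fun h => ⟨u, h, rfl⟩

/-- points of `seg a b` -/
theorem ArcFn.exists_of_mem (hHU : HU M) (h : ArcFn γ a b) {x : M} (hx : x ∈ seg a b) :
    ∃ u, 0 ≤ u ∧ u ≤ 1 ∧ γ u = x := by
  rw [← h.zero, ← h.one, h.seg_eq hHU le_rfl le_rfl zero_le_one] at hx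
  obtain ⟨u, hu, rfl⟩ := hx
  exact ⟨u, hu.1, hu.2, rfl⟩

theorem ArcFn.mem_seg (hHU : HU M) (h : ArcFn γ a b) {u : ℝ} (hu : 0 ≤ u) (hu' : u ≤ 1) :
    γ u ∈ seg a b := by
  rw [← h.zero, ← h.one, h.seg_eq hHU le_rfl le_rfl zero_le_one]
  exact ⟨u, ⟨hu, hu'⟩, rfl⟩

/-- the initial piece of an arc, reparametrised -/
theorem ArcFn.head (h : ArcFn γ a b) {u : ℝ} (hu : 0 < u) (hu' : u ≤ 1) :
    ArcFn (fun s => γ (u * s)) a (γ u) where
  cont := h.cont.comp (by fun_prop) (by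
    intro s hs
    exact ⟨mul_nonneg hu.le hs.1, (mul_le_of_le_one_right hu.le hs.2).trans hu'⟩)
  inj := by
    intro s hs t ht hst
    have h1 := h.inj (show u * s ∈ Icc (0 : ℝ) 1 from
      ⟨mul_nonneg hu.le hs.1, (mul_le_of_le_one_right hu.le hs.2).trans hu'⟩)
      (show u * t ∈ Icc (0 : ℝ) 1 from
      ⟨mul_nonneg hu.le ht.1, (mul_le_of_le_one_right hu.le ht.2).trans hu'⟩) hst
    exact mul_left_cancel₀ hu.ne' h1
  zero := by rw [mul_zero]; exact h.zero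
  one := by rw [mul_one]

/-- the reversed arc -/
theorem ArcFn.rev (h : ArcFn γ a b) : ArcFn (fun s => γ (1 - s)) b a where
  cont := h.cont.comp (by fun_prop) (by
    intro s hs
    exact ⟨by linarith [hs.2], by linarith [hs.1]⟩)
  inj := by
    intro s hs t ht hst
    have h1 := h.inj (show 1 - s ∈ Icc (0 : ℝ) 1 from ⟨by linarith [hs.2], by linarith [hs.1]⟩)
      (show 1 - t ∈ Icc (0 : ℝ) 1 from ⟨by linarith [ht.2], by linarith [ht.1]⟩) hst
    linarith
  zero := by rw [sub_zero]; exact h.one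
  one := by rw [sub_self]; exact h.zero

end arcs

end Pool.TL94
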